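import Mathlib

/-!
# The function `∫_0^1 (exp (w t) - 1) / t dt` and its Laplace transform
-/

set_option autoImplicit false
set_option maxHeartbeats 1000000

open MeasureTheory Filter Topology Set Complex

namespace Pool.Agent.Q245.Me

/-- `Ein* (w) = ∫_0^1 (exp (w t) - 1) / t dt = ∑ w ^ k / (k k!)` -/
noncomputable def Ein (w : ℂ) : ℂ := ∫ t in (0 : ℝ)..1, (exp (w * t) - 1) / t

lemma norm_exp_sub_one_le (z : ℂ) : ‖exp z - 1‖ ≤ ‖z‖ * Real.exp (max z.re 0) := by
  have h1 : ∀ τ ∈ Set.Icc (0 : ℝ) 1, HasDerivWithinAt (fun τ : ℝ => exp (z * τ))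
      (z * exp (z * τ)) (Set.Icc 0 1) τ := by
    intro τ _
    have h1 : HasDerivAt (fun u : ℝ => z * (u : ℂ)) z τ := by
      have := (Complex.ofRealCLM.hasDerivAt (x := τ)).const_mul z
      simpa using this
    have h2 := h1.cexp
    rw [mul_comm] at h2
    exact h2.hasDerivWithinAt
  have h2 : ∀ τ ∈ Set.Icc (0 : ℝ) 1, ‖z * exp (z * τ)‖ ≤ ‖z‖ * Real.exp (max z.re 0) := by
    intro τ hτ
    rw [norm_mul, Complex.norm_exp]
    refine mul_le_mul_of_nonneg_left (Real.exp_le_exp.2 ?_) (norm_nonneg _)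
    have e : (z * τ).re = z.re * τ := by simp
    rw [e]
    rcases le_total z.re 0 with h | h
    · exact (mul_nonpos_of_nonpos_of_nonneg h hτ.1).trans (le_max_right _ _)
    · exact (mul_le_of_le_one_right h hτ.2).trans (le_max_left _ _)
  have h3 := (convex_Icc (0 : ℝ) 1).norm_image_sub_le_of_norm_hasDerivWithin_le h1 h2
    (left_mem_Icc.2 zero_le_one) (right_mem_Icc.2 zero_le_one)
  simpa using h3

/-- the integrand -/
lemma integrand_le (w : ℂ) {t : ℝ} (h0 : 0 < t) (h1 : t ≤ 1) :
    ‖(exp (w * t) - 1) / t‖ ≤ ‖w‖ * Real.exp (max w.re 0) := by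
  rw [norm_div, Complex.norm_real, Real.norm_of_nonneg h0.le, div_le_iff₀ h0]
  refine (norm_exp_sub_one_le _).trans ?_
  rw [norm_mul, Complex.norm_real, Real.norm_of_nonneg h0.le]
  have e : (w * t).re = w.re * t := by simp
  rw [e]
  have h2 : Real.exp (max (w.re * t) 0) ≤ Real.exp (max w.re 0) := by
    apply Real.exp_le_exp.2
    apply max_le _ (le_max_right _ _)
    rcases le_total w.re 0 with h | h
    · exact (mul_nonpos_of_nonpos_of_nonneg h h0.le).trans (le_max_right _ _)
    · exact (mul_le_of_le_one_right h h1).trans (le_max_left _ _)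
  nlinarith [norm_nonneg w, mul_nonneg (norm_nonneg w) h0.le]

lemma ein_le (w : ℂ) : ‖Ein w‖ ≤ ‖w‖ * Real.exp (max w.re 0) := by
  have h := intervalIntegral.norm_integral_le_of_norm_le_const (a := (0 : ℝ)) (b := 1)
    (f := fun t : ℝ => (exp (w * t) - 1) / t) (C := ‖w‖ * Real.exp (max w.re 0)) (by
    intro t ht
    rw [uIoc_of_le zero_le_one] at ht
    exact integrand_le w ht.1 ht.2)
  unfold Ein
  simpa using h

lemma meas_integrand (w : ℂ) : Measurable fun t : ℝ => (exp (w * t) - 1) / (t : ℂ) := by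
  fun_prop

lemma continuous_ein : Continuous Ein := by
  rw [continuous_iff_continuousAt]
  intro w
  refine intervalIntegral.continuousAt_of_dominated_interval
    (bound := fun _ => (‖w‖ + 1) * Real.exp (‖w‖ + 1)) ?_ ?_ ?_ ?_
  · exact Eventually.of_forall fun x => (meas_integrand x).aestronglyMeasurable
  · filter_upwards [Metric.ball_mem_nhds w one_pos] with x hx
    refine Eventually.of_forall fun t ht => ?_
    rw [uIoc_of_le zero_le_one] at ht
    have h1 : ‖x‖ ≤ ‖w‖ + 1 := by
      have := mem_ball_iff_norm.1 hx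
      have := norm_le_insert' x w
      linarith
    refine (integrand_le x ht.1 ht.2).trans ?_
    have h2 : max x.re 0 ≤ ‖w‖ + 1 := by
      apply max_le _ (by positivity)
      exact (Complex.re_le_norm x).trans h1
    exact mul_le_mul h1 (Real.exp_le_exp.2 h2) (Real.exp_pos _).le (by positivity)
  · exact intervalIntegrable_const
  · refine Eventually.of_forall fun t _ => ?_
    apply ContinuousAt.div_const
    fun_prop

lemma ein_conj (w : ℂ) : Ein ((starRingEnd ℂ) w) = (starRingEnd ℂ) (Ein w) := by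
  unfold Ein
  rw [intervalIntegral.integral_of_le zero_le_one, intervalIntegral.integral_of_le zero_le_one,
    ← integral_conj]
  refine integral_congr_ae (Eventually.of_forall fun t => ?_)
  simp only [map_div₀, map_sub, map_one, Complex.conj_ofReal]
  rw [← Complex.exp_conj, map_mul, Complex.conj_ofReal]

/-- exponential decay -/
lemma u_exp_le {a : ℝ} (ha : 0 < a) {u : ℝ} : u * Real.exp (-(a * u)) ≤
    2 / a * Real.exp (-(a / 2 * u)) := by
  have h1 : a / 2 * u ≤ Real.exp (a / 2 * u) := by linarith [Real.add_one_le_exp (a / 2 * u)]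
  have h2 : u ≤ 2 / a * Real.exp (a / 2 * u) := by
    have : u = 2 / a * (a / 2 * u) := by field_simp
    calc u = 2 / a * (a / 2 * u) := this
      _ ≤ _ := mul_le_mul_of_nonneg_left h1 (by positivity)
  calc u * Real.exp (-(a * u)) ≤ 2 / a * Real.exp (a / 2 * u) * Real.exp (-(a * u)) :=
        mul_le_mul_of_nonneg_right h2 (Real.exp_pos _).le
    _ = 2 / a * (Real.exp (a / 2 * u) * Real.exp (-(a * u))) := by ring
    _ = _ := by rw [← Real.exp_add]; ring_nf

/-- the inner integral -/
lemma inner_int (ρ s : ℂ) (hs : max ρ.re 0 < s.re) {t : ℝ} (h0 : 0 < t) (h1 : t ≤ 1) :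
    ∫ u in Ioi (0 : ℝ), (exp (ρ * u * t) - 1) / t * exp (-(s * u)) = ρ / (s * (s - ρ * t)) := by
  have hs0 : 0 < s.re := (le_max_right _ _).trans_lt hs
  have hsne : s ≠ 0 := by
    rintro rfl
    simp at hs0
  have hre : (ρ * t - s).re < 0 := by
    have e : (ρ * t - s).re = ρ.re * t - s.re := by simp
    rw [e]
    rcases le_total ρ.re 0 with h | h
    · have := mul_nonpos_of_nonpos_of_nonneg h h0.le
      linarith
    · have := mul_le_of_le_one_right h h1
      have := (le_max_left ρ.re 0).trans_lt hs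
      linarith
  have hne : s - ρ * t ≠ 0 := by
    intro h
    have : (ρ * t - s).re = 0 := by
      rw [show ρ * t - s = -(s - ρ * t) by ring, h]
      simp
    linarith
  have htne : (t : ℂ) ≠ 0 := by exact_mod_cast h0.ne'
  have hns : (-s).re < 0 := by simpa using hs0
  have e : ∀ u : ℝ, (exp (ρ * u * t) - 1) / t * exp (-(s * u)) =
      (1 / t : ℂ) * exp ((ρ * t - s) * u) - (1 / t : ℂ) * exp (-s * u) := by
    intro u
    have e1 : exp ((ρ * t - s) * u) = exp (ρ * u * t) * exp (-(s * u)) := by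
      rw [← exp_add]
      congr 1
      ring
    rw [e1, show -s * (u : ℂ) = -(s * u) by ring]
    ring
  simp_rw [e]
  have i1 := (integrableOn_exp_mul_complex_Ioi hre 0)
  have i2 := (integrableOn_exp_mul_complex_Ioi hns 0)
  rw [integral_sub (i1.const_mul _) (i2.const_mul _), integral_const_mul, integral_const_mul,
    integral_exp_mul_complex_Ioi hre 0, integral_exp_mul_complex_Ioi hns 0]
  simp only [Complex.ofReal_zero, mul_zero, exp_zero]
  have hD : ρ * t - s = -(s - ρ * t) := by ring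
  rw [hD]
  obtain ⟨D, hDd⟩ : ∃ D : ℂ, D = s - ρ * t := ⟨_, rfl⟩
  rw [← hDd] at hne ⊢
  field_simp
  linear_combination -hDd

/-- the Laplace transform -/
theorem ein_laplace (ρ s : ℂ) (hs : max ρ.re 0 < s.re) :
    s * ∫ u in Ioi (0 : ℝ), Ein (ρ * u) * exp (-(s * u)) = -(log (s - ρ) - log s) := by
  have hs0 : 0 < s.re := (le_max_right _ _).trans_lt hs
  have hsne : s ≠ 0 := by
    rintro rfl
    simp at hs0
  set a : ℝ := s.re - max ρ.re 0 with ha
  have ha0 : 0 < a := by rw [ha]; linarith
  have hF : Integrable (fun p : ℝ × ℝ => (exp (ρ * p.1 * p.2) - 1) / p.2 * exp (-(s * p.1)))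
      ((volume.restrict (Ioi (0 : ℝ))).prod (volume.restrict (Ioc (0 : ℝ) 1))) := by
    have hb : Integrable (fun p : ℝ × ℝ => (‖ρ‖ * (2 / a) * Real.exp (-(a / 2) * p.1)) * (1 : ℝ))
        ((volume.restrict (Ioi (0 : ℝ))).prod (volume.restrict (Ioc (0 : ℝ) 1))) := by
      refine Integrable.mul_prod (f := fun u : ℝ => ‖ρ‖ * (2 / a) * Real.exp (-(a / 2) * u))
        (g := fun _ : ℝ => (1 : ℝ)) ?_ (integrable_const _)
      exact (integrableOn_exp_mul_Ioi (a := -(a / 2)) (by linarith) 0).const_mul _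
    refine hb.mono' (Measurable.aestronglyMeasurable (by fun_prop)) ?_
    rw [Measure.prod_restrict]
    filter_upwards [ae_restrict_mem (measurableSet_Ioi.prod measurableSet_Ioc)] with p hp
    have hu : 0 < p.1 := hp.1
    have ht0 : 0 < p.2 := hp.2.1
    have ht1 : p.2 ≤ 1 := hp.2.2
    rw [norm_mul, mul_one, Complex.norm_exp]
    have h1 := integrand_le (ρ * p.1) ht0 ht1
    have e1 : (ρ * (p.1 : ℂ)).re = ρ.re * p.1 := by simp
    have e2 : (-(s * (p.1 : ℂ))).re = -(s.re * p.1) := by simp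
    rw [e1, norm_mul, Complex.norm_real, Real.norm_of_nonneg hu.le] at h1
    rw [e2]
    have h2 : max (ρ.re * p.1) 0 = max ρ.re 0 * p.1 := by
      rw [max_mul_of_nonneg _ _ hu.le, zero_mul]
    rw [h2] at h1
    calc ‖(exp (ρ * p.1 * p.2) - 1) / (p.2 : ℂ)‖ * Real.exp (-(s.re * p.1)) ≤
          ‖ρ‖ * p.1 * Real.exp (max ρ.re 0 * p.1) * Real.exp (-(s.re * p.1)) :=
          mul_le_mul_of_nonneg_right h1 (Real.exp_pos _).le
      _ = ‖ρ‖ * (p.1 * Real.exp (-(a * p.1))) := by
          rw [mul_assoc, ← Real.exp_add, mul_assoc]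
          congr 3
          rw [ha]
          ring
      _ ≤ ‖ρ‖ * (2 / a * Real.exp (-(a / 2 * p.1))) :=
          mul_le_mul_of_nonneg_left (u_exp_le ha0) (norm_nonneg _)
      _ = _ := by rw [neg_mul]; ring
  have h1 : ∫ u in Ioi (0 : ℝ), Ein (ρ * u) * exp (-(s * u)) =
      ∫ u in Ioi (0 : ℝ), ∫ t in Ioc (0 : ℝ) 1, (exp (ρ * u * t) - 1) / t * exp (-(s * u)) := by
    refine integral_congr_ae (Eventually.of_forall fun u => ?_)
    simp only
    rw [integral_mul_const]
    congr 1
    unfold Ein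
    rw [intervalIntegral.integral_of_le zero_le_one]
  rw [h1, integral_integral_swap hF]
  have h2 : ∫ t in Ioc (0 : ℝ) 1, ∫ u in Ioi (0 : ℝ), (exp (ρ * u * t) - 1) / t * exp (-(s * u)) =
      ∫ t in Ioc (0 : ℝ) 1, ρ / (s * (s - ρ * t)) := by
    refine setIntegral_congr_fun measurableSet_Ioc fun t ht => ?_
    exact inner_int ρ s hs ht.1 ht.2
  rw [h2, ← intervalIntegral.integral_of_le zero_le_one]
  have hre : ∀ t ∈ uIcc (0 : ℝ) 1, 0 < (s - ρ * t).re := by
    intro t ht
    rw [uIcc_of_le zero_le_one] at ht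
    have e : (s - ρ * t).re = s.re - ρ.re * t := by simp
    rw [e]
    rcases le_total ρ.re 0 with h | h
    · have := mul_nonpos_of_nonpos_of_nonneg h ht.1
      linarith
    · have := mul_le_of_le_one_right h ht.2
      have := (le_max_left ρ.re 0).trans_lt hs
      linarith
  have h3 : ∀ t ∈ uIcc (0 : ℝ) 1, HasDerivAt (fun t : ℝ => -log (s - ρ * t) / s)
      (ρ / (s * (s - ρ * t))) t := by
    intro t ht
    have hne : s - ρ * t ≠ 0 := by
      intro h
      have := hre t ht
      rw [h] at this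
      simp at this
    have d1 : HasDerivAt (fun u : ℝ => s - ρ * (u : ℂ)) (-ρ) t := by
      have := ((Complex.ofRealCLM.hasDerivAt (x := t)).const_mul ρ).const_sub s
      simpa using this
    have d2 : HasDerivAt (fun t : ℝ => -log (s - ρ * t) / s) (-(-ρ / (s - ρ * t)) / s) t :=
      (d1.clog_real (Or.inl (hre t ht))).neg.div_const s
    exact d2.congr_deriv (by rw [neg_div, neg_div, neg_div, neg_neg, div_div, mul_comm s])
  have h4 : IntervalIntegrable (fun t : ℝ => ρ / (s * (s - ρ * t))) volume 0 1 := by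
    refine ContinuousOn.intervalIntegrable fun t ht => ?_
    have hne : s * (s - ρ * t) ≠ 0 := by
      refine mul_ne_zero hsne fun h => ?_
      have := hre t ht
      rw [h] at this
      simp at this
    have hc : ContinuousAt (fun t : ℝ => s * (s - ρ * (t : ℂ))) t := by fun_prop
    exact (continuousAt_const.div hc hne).continuousWithinAt
  rw [intervalIntegral.integral_eq_sub_of_hasDerivAt h3 h4]
  simp only [Complex.ofReal_one, Complex.ofReal_zero, mul_one, mul_zero, sub_zero]
  field_simp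
  ring

end Pool.Agent.Q245.Me
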