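import Pool.Agent.Q245.Me.Gen

/-!
# Euler products (and integer combinations of Euler products) over a set of primes with norms: the
criterion for the meromorphic continuation

The elementary lemmas on `LG`, `ex` follow `Pool.Agent.Q12.WN`, `Pool.Agent.Q12.EC` (helper12).
-/

set_option autoImplicit false
set_option maxHeartbeats 1000000

open MeasureTheory Filter Topology Set Complex
open scoped ENNReal

namespace Pool.Agent.Q245.Me.Eul

variable {P : Type} {q : P → ℝ}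

/-- the norms of the elements of a countable set `P` -/
structure PS (q : P → ℝ) : Prop where
  cnt : Countable P
  two_le : ∀ p, 2 ≤ q p
  summ : ∀ σ : ℝ, 1 < σ → Summable fun p => q p ^ (-σ)

/-- `k log q(p)` -/
noncomputable def LG (q : P → ℝ) (y : P × ℕ) : ℝ := ((y.2 : ℝ) + 1) * Real.log (q y.1)

theorem PS.pos (hq : PS q) (p : P) : 0 < q p := by linarith [hq.two_le p]

theorem PS.one_lt (hq : PS q) (p : P) : 1 < q p := by linarith [hq.two_le p]

theorem log2_le (hq : PS q) (p : P) : Real.log 2 ≤ Real.log (q p) :=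
  Real.log_le_log (by norm_num) (hq.two_le p)

theorem LG_ge (hq : PS q) (y : P × ℕ) : Real.log 2 ≤ LG q y := by
  unfold LG
  have h1 := log2_le hq y.1
  have h2 : 0 < Real.log 2 := Real.log_pos (by norm_num)
  have h3 : (0 : ℝ) ≤ y.2 := Nat.cast_nonneg _
  nlinarith

theorem rexp_LG (hq : PS q) (t : ℝ) (y : P × ℕ) :
    Real.exp (-(t * LG q y)) = (q y.1 ^ (-t)) ^ (y.2 + 1) := by
  rw [Real.rpow_def_of_pos (hq.pos y.1), ← Real.exp_nat_mul]
  congr 1
  unfold LG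
  push_cast
  ring

theorem cexp_LG (s : ℂ) (y : P × ℕ) :
    cexp (-(s * LG q y)) = cexp (-(s * Real.log (q y.1))) ^ (y.2 + 1) := by
  rw [← Complex.exp_nat_mul]
  congr 1
  unfold LG
  push_cast
  ring

theorem q_fin (hq : PS q) (x : ℝ) : {p | q p ≤ x}.Finite := by
  by_cases hx : 0 < x
  · have h1 := (hq.summ 2 (by norm_num)).tendsto_cofinite_zero
    have h2 := h1.eventually (gt_mem_nhds (show (0 : ℝ) < x ^ (-2 : ℝ) by positivity))
    rw [eventually_cofinite] at h2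
    refine h2.subset fun p hp => ?_
    have hp' : q p ≤ x := hp
    simp only [mem_setOf_eq, not_lt]
    exact Real.rpow_le_rpow_of_nonpos (hq.pos p) hp' (by norm_num)
  · refine Set.finite_empty.subset fun p hp => ?_
    have hp' : q p ≤ x := hp
    exact absurd ((hq.pos p).trans_le hp') hx

theorem LG_fin (hq : PS q) (u : ℝ) : {y : P × ℕ | LG q y ≤ u}.Finite := by
  have hlog2 : 0 < Real.log 2 := Real.log_pos (by norm_num)
  refine ((q_fin hq (Real.exp u)).prod (Set.finite_Iic ⌊u / Real.log 2⌋₊)).subset ?_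
  rintro ⟨p, k⟩ hy
  have hl : Real.log 2 ≤ Real.log (q p) := log2_le hq p
  have hy' : ((k : ℝ) + 1) * Real.log (q p) ≤ u := hy
  have hk : (0 : ℝ) ≤ k := Nat.cast_nonneg _
  constructor
  · show q p ≤ Real.exp u
    rw [← Real.log_le_iff_le_exp (hq.pos p)]
    nlinarith
  · show k ≤ _
    refine Nat.le_floor ?_
    rw [le_div_iff₀ hlog2]
    nlinarith

theorem one_summ (hq : PS q) {t : ℝ} (ht : 1 < t) :
    Summable fun y : P × ℕ => 1 / ((y.2 : ℝ) + 1) * Real.exp (-(t * LG q y)) := by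
  have h1 : Summable fun y : P × ℕ => (q y.1 ^ (-t)) ^ (y.2 + 1) := by
    have hr0 : 0 < (2 : ℝ) ^ (-t) := by positivity
    have hr1 : (2 : ℝ) ^ (-t) < 1 := Real.rpow_lt_one_of_one_lt_of_neg (by norm_num) (by linarith)
    have h2 := (hq.summ t ht).mul_of_nonneg (summable_geometric_of_lt_one hr0.le hr1) (fun v => by
      have := (hq.pos v).le
      positivity) (fun k => by positivity)
    refine Summable.of_nonneg_of_le (fun y => ?_) (fun y => ?_) h2
    · have := (hq.pos y.1).le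
      positivity
    · have h3 : q y.1 ^ (-t) ≤ (2 : ℝ) ^ (-t) :=
        Real.rpow_le_rpow_of_nonpos (by norm_num) (hq.two_le y.1) (by linarith)
      have h4 : 0 ≤ q y.1 ^ (-t) := Real.rpow_nonneg (hq.pos y.1).le _
      rw [pow_succ, mul_comm]
      exact mul_le_mul_of_nonneg_left (pow_le_pow_left₀ h4 h3 _) h4
  refine Summable.of_nonneg_of_le (fun y => by positivity) (fun y => ?_) h1
  rw [rexp_LG hq]
  have hp : 0 ≤ (q y.1 ^ (-t)) ^ (y.2 + 1) := pow_nonneg (Real.rpow_nonneg (hq.pos y.1).le _) _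
  refine mul_le_of_le_one_left hp ?_
  rw [div_le_one (by positivity)]
  have : (0 : ℝ) ≤ y.2 := Nat.cast_nonneg _
  linarith

/-! ### one Euler product -/

section one

variable {n : ℕ}

/-- `∑_{p, k} (∑_i β_i(p)^k) / (k q(p)^{ks})` -/
noncomputable def ex (q : P → ℝ) (β : P → Fin n → ℂ) (s : ℂ) : ℂ :=
  ∑' y : P × ℕ, (∑ i, β y.1 i ^ (y.2 + 1)) / ((y.2 : ℂ) + 1) * cexp (-(s * LG q y))

theorem tr_le {β : P → Fin n → ℂ} (hβ : ∀ p i, ‖β p i‖ ≤ 1) (p : P) (k : ℕ) : ‖∑ i, β p i ^ k‖ ≤ n := by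
  refine (norm_sum_le _ _).trans ?_
  calc ∑ i, ‖β p i ^ k‖ ≤ ∑ _i : Fin n, (1 : ℝ) := Finset.sum_le_sum fun i _ => by
        rw [norm_pow]
        exact pow_le_one₀ (norm_nonneg _) (hβ p i)
    _ = n := by simp

theorem ex_summ (hq : PS q) {β : P → Fin n → ℂ} (hβ : ∀ p i, ‖β p i‖ ≤ 1) {s : ℂ} (hs : 1 < s.re) :
    Summable fun y : P × ℕ => (∑ i, β y.1 i ^ (y.2 + 1)) / ((y.2 : ℂ) + 1) * cexp (-(s * LG q y)) := by
  refine Summable.of_norm_bounded ((one_summ hq hs).mul_left (n : ℝ)) fun y => ?_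
  have h1 : ‖((y.2 : ℂ) + 1)‖ = (y.2 : ℝ) + 1 := by
    rw [show ((y.2 : ℂ) + 1) = (((y.2 : ℝ) + 1 : ℝ) : ℂ) by push_cast; rfl, Complex.norm_real, Real.norm_eq_abs,
      abs_of_nonneg (by positivity)]
  rw [norm_mul, norm_div, h1, Complex.norm_exp, Complex.neg_re, Complex.re_mul_ofReal]
  have h2 := tr_le hβ y.1 (y.2 + 1)
  have h3 : 0 ≤ Real.exp (-(s.re * LG q y)) := (Real.exp_pos _).le
  calc ‖∑ i, β y.1 i ^ (y.2 + 1)‖ / ((y.2 : ℝ) + 1) * Real.exp (-(s.re * LG q y))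
      ≤ (n : ℝ) / ((y.2 : ℝ) + 1) * Real.exp (-(s.re * LG q y)) := by gcongr
    _ = (n : ℝ) * (1 / ((y.2 : ℝ) + 1) * Real.exp (-(s.re * LG q y))) := by ring

theorem ex_prod (hq : PS q) {β : P → Fin n → ℂ} (hβ : ∀ p i, ‖β p i‖ ≤ 1) {s : ℂ} (hs : 1 < s.re) :
    HasProd (fun p => ∏ i, (1 - β p i * cexp (-(s * Real.log (q p))))⁻¹) (cexp (ex q β s)) := by
  have hz : ∀ p i, ‖β p i * cexp (-(s * Real.log (q p)))‖ < 1 := fun p i => by
    rw [norm_mul, Complex.norm_exp, Complex.neg_re, Complex.re_mul_ofReal]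
    refine lt_of_le_of_lt (mul_le_of_le_one_left (Real.exp_pos _).le (hβ p i)) ?_
    rw [Real.exp_lt_one_iff]
    have := Real.log_pos (hq.one_lt p)
    nlinarith
  have h1 : ∀ p, HasSum (fun k : ℕ => (∑ i, β p i ^ (k + 1)) / ((k : ℂ) + 1) * cexp (-(s * LG q (p, k))))
      (∑ i, -Complex.log (1 - β p i * cexp (-(s * Real.log (q p))))) := fun p => by
    have h2 : ∀ i, HasSum (fun k : ℕ => (β p i * cexp (-(s * Real.log (q p)))) ^ (k + 1) / (((k + 1 : ℕ)) : ℂ))
        (-Complex.log (1 - β p i * cexp (-(s * Real.log (q p))))) := fun i => by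
      have h3 := Complex.hasSum_taylorSeries_neg_log (hz p i)
      rw [← hasSum_nat_add_iff' 1] at h3
      simpa using h3
    have h4 := hasSum_sum (s := Finset.univ) fun i (_ : i ∈ (Finset.univ : Finset (Fin n))) => h2 i
    refine h4.congr_fun fun k => ?_
    show _ = _
    rw [cexp_LG]
    simp only
    rw [Finset.sum_div, Finset.sum_mul]
    refine Finset.sum_congr rfl fun i _ => ?_
    push_cast
    rw [mul_pow]
    ring
  have h5 := ((ex_summ hq hβ hs).hasSum.prod_fiberwise h1).cexp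
  refine h5.congr_fun fun p => ?_
  show _ = cexp _
  rw [Complex.exp_sum]
  refine Finset.prod_congr rfl fun i _ => ?_
  rw [Complex.exp_neg (Complex.log _), Complex.exp_log]
  intro h6
  have h7 := hz p i
  rw [sub_eq_zero] at h6
  rw [← h6, norm_one] at h7
  exact lt_irrefl _ h7

end one

/-! ### the criterion -/

/-- the series of the logarithm: `∑_{p, k} b(p, k) / (k q(p)^{ks})` -/
noncomputable def lser (q : P → ℝ) (b : P → ℕ → ℝ) (s : ℂ) : ℂ :=
  ∑' y : P × ℕ, ((b y.1 (y.2 + 1) / ((y.2 : ℝ) + 1) : ℝ) : ℂ) * cexp (-(s * LG q y))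

/-- the partial product at `σ` -/
noncomputable def pp (q : P → ℝ) (b : P → ℕ → ℝ) (σ y : ℝ) : ℝ :=
  Real.exp (-∑ᶠ (x : P × ℕ) (_ : q x.1 ^ (x.2 + 1) ≤ y),
    b x.1 (x.2 + 1) / (((x.2 : ℝ) + 1) * (q x.1 ^ σ) ^ (x.2 + 1)))

/-- the Hardy space `H²` of the half plane `Re s > τ` -/
structure Hardy (τ : ℝ) (H : ℂ → ℂ) : Prop where
  analytic : ∀ s : ℂ, τ < s.re → DifferentiableAt ℂ H s
  bounded : ∀ x : ℝ, τ < x → ∃ B : ℝ, ∀ s : ℂ, x ≤ s.re → ‖H s‖ ≤ B
  square : ∃ M : ℝ, ∀ x : ℝ, τ < x → ∫⁻ t : ℝ, ‖H (x + t * I)‖ₑ ^ 2 ≤ ENNReal.ofReal M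

/-- the divisor is symmetric -/
def Symmetric (Z : Finset ℂ) (m : ℂ → ℤ) : Prop :=
  ∀ ρ ∈ Z, (starRingEnd ℂ) ρ ∈ Z ∧ m ((starRingEnd ℂ) ρ) = m ρ

/-- the deviation -/
noncomputable def deviation (q : P → ℝ) (b : P → ℕ → ℝ) (σ r A : ℝ) (Z : Finset ℂ) (m : ℂ → ℤ) (y : ℝ) : ℝ :=
  Real.log (A * pp q b σ y / (Real.exp Real.eulerMascheroniConstant * Real.log y) ^ r) -
    ∑ ρ ∈ Z, (m ρ : ℝ) * (Ein ((ρ - σ) * Real.log y)).re

/-- the condition -/
def SquareIntegrable (q : P → ℝ) (b : P → ℕ → ℝ) (σ τ r A : ℝ) (Z : Finset ℂ) (m : ℂ → ℤ) : Prop :=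
  IntegrableOn (fun y : ℝ => deviation q b σ r A Z m y ^ 2 * y ^ (-(2 * (τ - σ))) / y)
    (Ioi (Real.exp 1))

/-- the continuation -/
noncomputable def continuation (σ r A : ℝ) (Z : Finset ℂ) (m : ℂ → ℤ) (H : ℂ → ℂ) (s : ℂ) : ℂ :=
  A * (s - σ) ^ (r : ℂ) * (∏ ρ ∈ Z, ((s - ρ) / (s - σ)) ^ m ρ) * exp ((s - σ) * H s)

/-- the shifted divisor -/
noncomputable def sh (σ : ℝ) (Z : Finset ℂ) : Finset ℂ := Z.image fun ρ => ρ - σ

def shm (σ : ℝ) (m : ℂ → ℤ) (w : ℂ) : ℤ := m (w + σ)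

/-- the coefficients at `σ` -/
noncomputable def cc (q : P → ℝ) (b : P → ℕ → ℝ) (σ : ℝ) (y : P × ℕ) : ℝ :=
  b y.1 (y.2 + 1) / ((y.2 : ℝ) + 1) * Real.exp (-(σ * LG q y))

theorem cc_ser (hq : PS q) {b : P → ℕ → ℝ} {M : ℝ} (hb : ∀ p k, |b p k| ≤ M) {σ : ℝ} (hσ : 1 / 2 ≤ σ) :
    GSer (LG q) (cc q b σ) where
  cnt := by
    have := hq.cnt
    infer_instance
  gap := ⟨Real.log 2, Real.log_pos (by norm_num), LG_ge hq⟩
  sum := fun t ht => by
    refine Summable.of_nonneg_of_le (fun y => by positivity) (fun y => ?_)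
      ((one_summ hq (t := σ + t) (by linarith)).mul_left M)
    unfold cc
    rw [abs_mul, abs_div, abs_of_pos (by positivity : (0 : ℝ) < (y.2 : ℝ) + 1),
      abs_of_pos (Real.exp_pos _), mul_assoc, ← Real.exp_add]
    have h1 : -(σ * LG q y) + -(t * LG q y) = -((σ + t) * LG q y) := by ring
    rw [h1, ← mul_assoc, mul_one_div]
    have h2 := hb y.1 (y.2 + 1)
    gcongr

theorem GLs_eq (b : P → ℕ → ℝ) (σ : ℝ) (w : ℂ) :
    GLs (LG q) (cc q b σ) w = lser q b (σ + w) := by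
  unfold GLs lser cc
  refine tsum_congr fun y => ?_
  push_cast
  rw [mul_assoc, ← exp_add]
  congr 2
  ring

theorem pp_eq (hq : PS q) (b : P → ℕ → ℝ) (σ : ℝ) {y : ℝ} (hy : 0 < y) :
    Real.log (pp q b σ y) = -GSs (LG q) (cc q b σ) (Real.log y) := by
  classical
  have hiff : ∀ x : P × ℕ, q x.1 ^ (x.2 + 1) ≤ y ↔ LG q x ≤ Real.log y := by
    intro x
    have h1 : 0 < q x.1 ^ (x.2 + 1) := pow_pos (hq.pos _) _
    rw [← Real.log_le_log_iff h1 hy, Real.log_pow]
    unfold LG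
    push_cast
    rfl
  unfold pp GSs
  rw [Real.log_exp]
  congr 1
  have hfin : (Function.support fun x : P × ℕ =>
      if LG q x ≤ Real.log y then cc q b σ x else 0).Finite := by
    refine (LG_fin hq (Real.log y)).subset fun x hx => ?_
    by_contra h
    have h' : ¬ LG q x ≤ Real.log y := h
    rw [Function.mem_support, if_neg h'] at hx
    exact hx rfl
  rw [tsum_eq_finsum hfin]
  refine finsum_congr fun x => ?_
  rw [finsum_eq_if]
  by_cases h : LG q x ≤ Real.log y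
  · rw [if_pos h, if_pos ((hiff x).2 h)]
    unfold cc
    have h1 : Real.exp (-(σ * LG q x)) = ((q x.1 ^ σ) ^ (x.2 + 1))⁻¹ := by
      rw [rexp_LG hq, Real.rpow_neg (hq.pos _).le, inv_pow]
    rw [h1, div_mul_eq_div_div, div_eq_mul_inv (b x.1 (x.2 + 1) / ((x.2 : ℝ) + 1))]
  · rw [if_neg h, if_neg fun h' => h ((hiff x).1 h')]

theorem dev_eq (hq : PS q) (b : P → ℕ → ℝ) {σ r A y : ℝ} (hA : 0 < A) (hy : 1 < y) (Z : Finset ℂ)
    (m : ℂ → ℤ) :
    deviation q b σ r A Z m y = Real.log A - GSs (LG q) (cc q b σ) (Real.log y) -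
      r * Real.log (Real.log y) - r * Real.eulerMascheroniConstant -
      gZ (sh σ Z) (shm σ m) (Real.log y) := by
  have hl : 0 < Real.log y := Real.log_pos hy
  have h1 : 0 < Real.exp Real.eulerMascheroniConstant * Real.log y :=
    mul_pos (Real.exp_pos _) hl
  have h2 := Real.rpow_pos_of_pos h1 r
  have hpp : 0 < pp q b σ y := Real.exp_pos _
  unfold deviation
  rw [Real.log_div (mul_pos hA hpp).ne' h2.ne', Real.log_mul hA.ne'
    hpp.ne', pp_eq hq b σ (by linarith), Real.log_rpow h1, Real.log_mul (Real.exp_pos _).ne' hl.ne',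
    Real.log_exp]
  unfold gZ sh
  rw [Finset.sum_image (fun a _ b _ h => by simpa using h)]
  simp only [shm, sub_add_cancel]
  ring

theorem sh_sym {σ : ℝ} {Z : Finset ℂ} {m : ℂ → ℤ} (hZ : Symmetric Z m) :
    ∀ ρ ∈ sh σ Z, (starRingEnd ℂ) ρ ∈ sh σ Z ∧ shm σ m ((starRingEnd ℂ) ρ) = shm σ m ρ := by
  intro ρ hρ
  obtain ⟨w, hw, rfl⟩ := Finset.mem_image.1 hρ
  obtain ⟨h1, h2⟩ := hZ w hw
  have h3 : (starRingEnd ℂ) (w - σ) = (starRingEnd ℂ) w - σ := by simp
  rw [h3]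
  refine ⟨Finset.mem_image.2 ⟨_, h1, rfl⟩, ?_⟩
  unfold shm
  rw [sub_add_cancel, sub_add_cancel]
  exact h2

theorem cont_eq {σ : ℝ} (r A : ℝ) (Z : Finset ℂ) (m : ℂ → ℤ) (H : ℂ → ℂ) {s : ℂ} (hs : s - σ ≠ 0) :
    continuation σ r A Z m H s = FZ r A (sh σ Z) (shm σ m) (fun w => H (σ + w)) (s - σ) := by
  have h1 : RZ (sh σ Z) (shm σ m) (s - σ) = ∏ ρ ∈ Z, ((s - ρ) / (s - σ)) ^ m ρ := by
    unfold RZ sh
    rw [Finset.prod_image (fun a _ b _ h => by simpa using h)]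
    refine Finset.prod_congr rfl fun ρ _ => ?_
    unfold shm
    rw [sub_add_cancel]
    congr 1
    field_simp
    ring
  unfold continuation FZ
  rw [h1]
  simp only [add_sub_cancel]

theorem hardy_iff (σ τ : ℝ) (H : ℂ → ℂ) : Hardy τ H ↔ H2e (τ - σ) (fun w => H (σ + w)) := by
  constructor
  · rintro ⟨h1, h2, M, h3⟩
    refine ⟨fun s hs => ?_, fun x hx => ?_, M, fun x hx => ?_⟩
    · have h4 := h1 (σ + s) (by rw [add_re, ofReal_re]; linarith)
      exact DifferentiableAt.comp s (f := fun s : ℂ => (σ : ℂ) + s) h4 (by fun_prop)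
    · obtain ⟨B, hB⟩ := h2 (σ + x) (by linarith)
      exact ⟨B, fun s hs => hB (σ + s) (by rw [add_re, ofReal_re]; linarith)⟩
    · have h4 := h3 (σ + x) (by linarith)
      refine le_trans (le_of_eq (lintegral_congr fun t => ?_)) h4
      push_cast
      rw [← add_assoc]
  · rintro ⟨h1, h2, M, h3⟩
    refine ⟨fun s hs => ?_, fun x hx => ?_, M, fun x hx => ?_⟩
    · have h4 := h1 (s - σ) (by rw [sub_re, ofReal_re]; linarith)
      have h5 : H = (fun s => H (σ + s)) ∘ fun s => s - (σ : ℂ) := by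
        funext z
        simp
      rw [h5]
      exact DifferentiableAt.comp s (f := fun s : ℂ => s - (σ : ℂ)) h4 (by fun_prop)
    · obtain ⟨B, hB⟩ := h2 (x - σ) (by linarith)
      refine ⟨B, fun s hs => ?_⟩
      have h4 := hB (s - σ) (by
        rw [Complex.sub_re, Complex.ofReal_re]
        linarith)
      rwa [add_sub_cancel] at h4
    · have h4 := h3 (x - σ) (by linarith)
      refine le_trans (le_of_eq (lintegral_congr fun t => ?_)) h4
      congr 3
      push_cast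
      ring

theorem shift_exists (σ : ℝ) (Q : (ℂ → ℂ) → Prop) :
    (∃ H : ℂ → ℂ, Q (fun s => H (σ + s))) ↔ ∃ H : ℂ → ℂ, Q H := by
  constructor
  · rintro ⟨H, h⟩
    exact ⟨_, h⟩
  · rintro ⟨H, h⟩
    refine ⟨fun s => H (s - σ), ?_⟩
    have h1 : (fun s : ℂ => (fun s => H (s - σ)) (σ + s)) = H := by
      funext s
      simp
    rw [h1]
    exact h

open scoped Classical in
theorem order_shift {σ τ r A : ℝ} (hA : 0 < A) (hτ : σ ≤ τ) (Z : Finset ℂ) (m : ℂ → ℤ)
    {H : ℂ → ℂ} (hH : Hardy τ H) {s : ℂ} (hs : τ < s.re) :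
    MeromorphicAt (continuation σ r A Z m H) s ∧
      meromorphicOrderAt (continuation σ r A Z m H) s =
        ((if s ∈ Z then m s else 0 : ℤ) : WithTop ℤ) := by
  have hw : τ - σ < (s - σ).re := by
    rw [sub_re, ofReal_re]
    linarith
  have hH' := (hardy_iff σ τ H).1 hH
  obtain ⟨h1, h2⟩ := FZ_order (r := r) (A := A) (η := τ - σ) hA (by linarith) (Z := sh σ Z)
    (m := shm σ m) (H := fun w => H (σ + w)) hH'.1 hw
  have han : AnalyticAt ℂ (fun s : ℂ => s - (σ : ℂ)) s := analyticAt_id.sub analyticAt_const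
  have e1 : (fun z : ℂ => FZ r A (sh σ Z) (shm σ m) (fun w => H (σ + w)) (z - σ)) =ᶠ[𝓝[≠] s]
      continuation σ r A Z m H := by
    refine Filter.Eventually.filter_mono nhdsWithin_le_nhds ?_
    have hne : s - (σ : ℂ) ≠ 0 := by
      intro h0
      rw [h0] at hw
      simp at hw
      linarith
    filter_upwards [han.continuousAt.eventually_ne hne] with z hz
    exact (cont_eq r A Z m H hz).symm
  have hd : deriv (fun s : ℂ => s - (σ : ℂ)) s ≠ 0 := by
    simp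
  have m1 : MeromorphicAt (FZ r A (sh σ Z) (shm σ m) (fun w => H (σ + w)) ∘
      fun z : ℂ => z - (σ : ℂ)) s := MeromorphicAt.comp_analyticAt (g := fun z : ℂ => z - (σ : ℂ)) h1 han
  have o1 : meromorphicOrderAt (FZ r A (sh σ Z) (shm σ m) (fun w => H (σ + w)) ∘
      fun z : ℂ => z - (σ : ℂ)) s =
      meromorphicOrderAt (FZ r A (sh σ Z) (shm σ m) (fun w => H (σ + w))) (s - σ) :=
    meromorphicOrderAt_comp_of_deriv_ne_zero han hd
  refine ⟨m1.congr e1, ?_⟩
  rw [← meromorphicOrderAt_congr e1]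
  have o2 := o1.trans h2
  refine o2.trans ?_
  have h3 : (s - σ ∈ sh σ Z) ↔ s ∈ Z := by
    unfold sh
    rw [Finset.mem_image]
    constructor
    · rintro ⟨w, hw, he⟩
      have : w = s := by simpa using he
      rwa [← this]
    · intro h
      exact ⟨s, h, rfl⟩
  unfold shm
  rw [sub_add_cancel]
  by_cases h : s ∈ Z
  · rw [if_pos (h3.2 h), if_pos h]
  · rw [if_neg (fun h' => h (h3.1 h')), if_neg h]

open scoped Classical in
/-- **The criterion** for `L(s) = exp (∑ b(p, k) / (k q(p)^{ks}))`, `|b| ≤ M`. -/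
theorem criterion (hq : PS q) {b : P → ℕ → ℝ} {M : ℝ} (hb : ∀ p k, |b p k| ≤ M) {L : ℂ → ℂ}
    (hL : ∀ s : ℂ, 1 < s.re → L s = exp (lser q b s)) {σ τ : ℝ} (hσ : 1 / 2 ≤ σ) (hτ : σ ≤ τ)
    (hτ2 : τ < σ + 1 / 2) (r : ℝ) {A : ℝ} (hA : 0 < A) (Z : Finset ℂ) (m : ℂ → ℤ)
    (hZ : Symmetric Z m) (hre : ∀ ρ ∈ Z, ρ.re ≤ σ + 1 / 2) :
    (SquareIntegrable q b σ τ r A Z m ↔
      ∃ H : ℂ → ℂ, Hardy τ H ∧ ∀ s : ℂ, 1 < s.re → σ + 1 / 2 < s.re →
        L s = continuation σ r A Z m H s) ∧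
    (SquareIntegrable q b σ τ r A Z m → ∃ F : ℂ → ℂ,
      (∀ s : ℂ, 1 < s.re → σ + 1 / 2 < s.re → L s = F s) ∧
      ∀ s : ℂ, τ < s.re → MeromorphicAt F s ∧
        meromorphicOrderAt F s = ((if s ∈ Z then m s else 0 : ℤ) : WithTop ℤ)) := by
  have hre' : ∀ ρ ∈ sh σ Z, ρ.re ≤ 1 / 2 := by
    intro ρ hρ
    obtain ⟨w, hw, rfl⟩ := Finset.mem_image.1 hρ
    have := hre w hw
    rw [sub_re, ofReal_re]
    linarith
  have hRd : ∀ s : ℂ, 1 / 2 < s.re → DifferentiableAt ℂ (RZ (sh σ Z) (shm σ m)) s := by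
    intro s hs
    refine RZ_diff ?_ fun h => ?_
    · rintro rfl
      simp at hs
      linarith
    · have := hre' s h
      linarith
  have main := gen_mero (cc_ser hq hb hσ) r hA (η := τ - σ) (by linarith) (by linarith)
    (gZ_GD (sh_sym hZ) hre') (fun s hs => RZ_exp hre' hs) hRd
  have hint : SquareIntegrable q b σ τ r A Z m ↔
      IntegrableOn (fun T : ℝ => (Real.log A - GSs (LG q) (cc q b σ) T - r * Real.log T -
        r * Real.eulerMascheroniConstant - gZ (sh σ Z) (shm σ m) T) ^ 2 *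
          Real.exp (-(2 * (τ - σ)) * T)) (Ioi 1) := by
    rw [← Pool.Agent.TH270.MS.cov_int]
    refine integrableOn_congr_fun (fun y hy => ?_) measurableSet_Ioi
    have hy' : Real.exp 1 < y := hy
    have hy1 : 1 < y := by linarith [Real.add_one_le_exp 1]
    have e1 : y ^ (-(2 * (τ - σ))) = Real.exp (-(2 * (τ - σ)) * Real.log y) := by
      rw [Real.rpow_def_of_pos (by linarith), mul_comm]
    rw [dev_eq hq b hA hy1 Z m, e1]
  rw [← hint] at main
  have hrep : ∀ H : ℂ → ℂ, (∀ s : ℂ, 1 < s.re → σ + 1 / 2 < s.re →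
      L s = continuation σ r A Z m H s) ↔ ∀ w : ℂ, 1 / 2 < w.re →
      exp (GLs (LG q) (cc q b σ) w) =
        A * w ^ (r : ℂ) * RZ (sh σ Z) (shm σ m) w * exp (w * H (σ + w)) := by
    intro H
    constructor
    · intro h w hw
      have h0 : ((σ : ℂ) + w).re = σ + w.re := by simp
      have h1 := h (σ + w) (by rw [h0]; linarith) (by rw [h0]; linarith)
      have hw0 : (σ : ℂ) + w - σ ≠ 0 := by
        rw [add_sub_cancel_left]
        rintro rfl
        simp at hw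
        linarith
      rw [hL _ (by rw [h0]; linarith), cont_eq r A Z m H hw0, add_sub_cancel_left] at h1
      rw [GLs_eq, h1]
      rfl
    · intro h s hs1 hs
      have hs' : 1 / 2 < (s - σ).re := by
        rw [Complex.sub_re, Complex.ofReal_re]
        linarith
      have hs0 : s - σ ≠ 0 := by
        intro h0
        rw [h0] at hs'
        simp at hs'
        linarith
      have h1 := h (s - σ) hs'
      rw [GLs_eq, add_sub_cancel] at h1
      rw [cont_eq r A Z m H hs0, hL s hs1, h1]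
      unfold FZ
      simp only [add_sub_cancel]
  have h1 : SquareIntegrable q b σ τ r A Z m ↔
      ∃ H : ℂ → ℂ, Hardy τ H ∧ ∀ s : ℂ, 1 < s.re → σ + 1 / 2 < s.re →
        L s = continuation σ r A Z m H s := by
    rw [main, ← shift_exists σ]
    exact exists_congr fun H => and_congr (hardy_iff σ τ H).symm (hrep H).symm
  refine ⟨h1, fun h => ?_⟩
  obtain ⟨H, hH, hF⟩ := h1.1 h
  exact ⟨continuation σ r A Z m H, hF, fun s hs => order_shift hA hτ Z m hH hs⟩

end Pool.Agent.Q245.Me.Eul
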