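import Pool.Agent.Q245.Me.Zer

/-!
# Zeros and poles of the continuation
-/

set_option autoImplicit false
set_option maxHeartbeats 1000000

open Filter Topology Set Complex

namespace Pool.Agent.Q245.Me

/-- the continuation -/
noncomputable def FZ (r A : ℝ) (Z : Finset ℂ) (m : ℂ → ℤ) (H : ℂ → ℂ) (w : ℂ) : ℂ :=
  A * w ^ (r : ℂ) * RZ Z m w * exp (w * H w)

open scoped Classical in
lemma factor_order {ρ w : ℂ} (hw : w ≠ 0) (n : ℤ) :
    MeromorphicAt (fun w : ℂ => (1 - ρ / w) ^ n) w ∧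
      meromorphicOrderAt (fun w : ℂ => (1 - ρ / w) ^ n) w =
        ((if w = ρ then n else 0 : ℤ) : WithTop ℤ) := by
  have hinv : AnalyticAt ℂ (fun w : ℂ => w⁻¹) w := analyticAt_id.inv hw
  have h1 : MeromorphicAt (fun w : ℂ => w - ρ) w :=
    (analyticAt_id.sub analyticAt_const).meromorphicAt
  have e : (fun w : ℂ => (1 - ρ / w) ^ n) =ᶠ[𝓝[≠] w] fun w => ((w - ρ) * w⁻¹) ^ n := by
    refine Filter.Eventually.filter_mono nhdsWithin_le_nhds ?_
    filter_upwards [isOpen_ne.mem_nhds hw] with z hz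
    have hz' : z ≠ 0 := hz
    congr 1
    field_simp
  have h2 : MeromorphicAt (fun w : ℂ => (w - ρ) * w⁻¹) w := h1.mul hinv.meromorphicAt
  refine ⟨(h2.zpow n).congr e.symm, ?_⟩
  rw [meromorphicOrderAt_congr e]
  have h3 : meromorphicOrderAt (fun w : ℂ => (w - ρ) * w⁻¹) w =
      ((if w = ρ then 1 else 0 : ℤ) : WithTop ℤ) := by
    have h4 : meromorphicOrderAt (fun w : ℂ => w⁻¹) w = 0 := by
      rw [← tendsto_ne_zero_iff_meromorphicOrderAt_eq_zero hinv.meromorphicAt]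
      exact ⟨w⁻¹, inv_ne_zero hw, hinv.continuousAt.tendsto.mono_left nhdsWithin_le_nhds⟩
    have h5 : meromorphicOrderAt (fun w : ℂ => (w - ρ) * w⁻¹) w =
        meromorphicOrderAt (fun w : ℂ => w - ρ) w + meromorphicOrderAt (fun w : ℂ => w⁻¹) w :=
      meromorphicOrderAt_mul h1 hinv.meromorphicAt
    rw [h5, h4, add_zero]
    by_cases hwρ : w = ρ
    · subst hwρ
      rw [if_pos rfl]
      exact meromorphicOrderAt_id_sub_const
    · rw [if_neg hwρ]
      have h6 : AnalyticAt ℂ (fun w : ℂ => w - ρ) w := analyticAt_id.sub analyticAt_const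
      have h7 : meromorphicOrderAt (fun w : ℂ => w - ρ) w = 0 := by
        rw [← tendsto_ne_zero_iff_meromorphicOrderAt_eq_zero h1]
        exact ⟨w - ρ, sub_ne_zero.mpr hwρ, h6.continuousAt.tendsto.mono_left nhdsWithin_le_nhds⟩
      rw [h7]
      rfl
  have h8 : meromorphicOrderAt (fun w : ℂ => ((w - ρ) * w⁻¹) ^ n) w =
      n * meromorphicOrderAt (fun w : ℂ => (w - ρ) * w⁻¹) w := meromorphicOrderAt_zpow h2
  rw [h8, h3]
  by_cases hwρ : w = ρ
  · rw [if_pos hwρ, if_pos hwρ]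
    simp
  · rw [if_neg hwρ, if_neg hwρ]
    simp

open scoped Classical in
lemma RZ_order {Z : Finset ℂ} {m : ℂ → ℤ} {w : ℂ} (hw : w ≠ 0) :
    MeromorphicAt (RZ Z m) w ∧
      meromorphicOrderAt (RZ Z m) w = ((if w ∈ Z then m w else 0 : ℤ) : WithTop ℤ) := by
  constructor
  · unfold RZ
    exact MeromorphicAt.fun_prod fun ρ _ => (factor_order hw (m ρ)).1
  · unfold RZ
    rw [meromorphicOrderAt_fun_prod fun ρ _ => (factor_order hw (m ρ)).1]
    rw [Finset.sum_congr rfl fun ρ _ => (factor_order hw (m ρ)).2]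
    have : ∑ ρ ∈ Z, ((if w = ρ then m ρ else 0 : ℤ) : WithTop ℤ) =
        ((∑ ρ ∈ Z, (if w = ρ then m ρ else 0) : ℤ) : WithTop ℤ) := by
      push_cast
      rfl
    rw [this, Finset.sum_ite_eq]

open scoped Classical in
theorem FZ_order {r A η : ℝ} (hA : 0 < A) (hη : 0 ≤ η) {Z : Finset ℂ} {m : ℂ → ℤ} {H : ℂ → ℂ}
    (hH : ∀ s : ℂ, η < s.re → DifferentiableAt ℂ H s) {w : ℂ} (hw : η < w.re) :
    MeromorphicAt (FZ r A Z m H) w ∧
      meromorphicOrderAt (FZ r A Z m H) w = ((if w ∈ Z then m w else 0 : ℤ) : WithTop ℤ) := by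
  have hw0 : 0 < w.re := by linarith
  have hwne : w ≠ 0 := by
    rintro rfl
    simp at hw0
  have hU : IsOpen {s : ℂ | η < s.re} := isOpen_lt continuous_const Complex.continuous_re
  have hHan : AnalyticAt ℂ H w := by
    have h1 : DifferentiableOn ℂ H {s : ℂ | η < s.re} := fun s hs =>
      (hH s hs).differentiableWithinAt
    exact h1.analyticAt (hU.mem_nhds hw)
  have h1 : AnalyticAt ℂ (fun w : ℂ => A * w ^ (r : ℂ)) w :=
    analyticAt_const.mul (analyticAt_id.cpow analyticAt_const (Or.inl hw0))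
  have h2 : AnalyticAt ℂ (fun w : ℂ => exp (w * H w)) w :=
    (analyticAt_id.mul hHan).cexp
  have h1n : (A : ℂ) * w ^ (r : ℂ) ≠ 0 := by
    refine mul_ne_zero (by exact_mod_cast hA.ne') ?_
    rw [cpow_def_of_ne_zero hwne]
    exact exp_ne_zero _
  obtain ⟨h3, h4⟩ := RZ_order (Z := Z) (m := m) hwne
  have o1 : meromorphicOrderAt (fun w : ℂ => A * w ^ (r : ℂ)) w = 0 := by
    rw [← tendsto_ne_zero_iff_meromorphicOrderAt_eq_zero h1.meromorphicAt]
    exact ⟨_, h1n, h1.continuousAt.tendsto.mono_left nhdsWithin_le_nhds⟩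
  have o2 : meromorphicOrderAt (fun w : ℂ => exp (w * H w)) w = 0 := by
    rw [← tendsto_ne_zero_iff_meromorphicOrderAt_eq_zero h2.meromorphicAt]
    exact ⟨_, exp_ne_zero _, h2.continuousAt.tendsto.mono_left nhdsWithin_le_nhds⟩
  have m1 : MeromorphicAt (fun w : ℂ => A * w ^ (r : ℂ) * RZ Z m w) w := h1.meromorphicAt.mul h3
  have e1 : meromorphicOrderAt (fun w : ℂ => A * w ^ (r : ℂ) * RZ Z m w) w =
      meromorphicOrderAt (fun w : ℂ => A * w ^ (r : ℂ)) w + meromorphicOrderAt (RZ Z m) w :=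
    meromorphicOrderAt_mul h1.meromorphicAt h3
  have e2 : meromorphicOrderAt (FZ r A Z m H) w =
      meromorphicOrderAt (fun w : ℂ => A * w ^ (r : ℂ) * RZ Z m w) w +
        meromorphicOrderAt (fun w : ℂ => exp (w * H w)) w :=
    meromorphicOrderAt_mul m1 h2.meromorphicAt
  exact ⟨m1.mul h2.meromorphicAt, by rw [e2, e1, o1, o2, zero_add, add_zero, h4]⟩

end Pool.Agent.Q245.Me
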