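import Pool.Agent.Q245.Me.Sys
import Pool.Agent.Q245.Me.Ord

/-!
# Dirichlet series over a countable set with real coefficients: the meromorphic Hardy criterion
-/

set_option autoImplicit false
set_option maxHeartbeats 1000000

open MeasureTheory Filter Topology Set Complex
open scoped ENNReal
open Pool.Agent.TH942.LS (Dat)
open Pool.Agent.TH942.SL (DD)
open Pool.Agent.TH270.MS (Sh)
open Pool.Agent.Q5.BP

namespace Pool.Agent.Q245.Me

/-- a Dirichlet series `∑ c_x exp (-s λ_x)` over a countable set, absolutely convergent for `Re s > 1/2` -/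
structure GSer {I : Type} (lam c : I → ℝ) : Prop where
  cnt : Countable I
  gap : ∃ δ : ℝ, 0 < δ ∧ ∀ x, δ ≤ lam x
  sum : ∀ t : ℝ, 1 / 2 < t → Summable fun x => |c x| * Real.exp (-(t * lam x))

variable {I : Type} {lam c : I → ℝ}

/-- the series -/
noncomputable def GLs (lam c : I → ℝ) (s : ℂ) : ℂ := ∑' x, (c x : ℂ) * exp (-(s * lam x))

/-- the sum over `λ_x ≤ T` -/
noncomputable def GSs (lam c : I → ℝ) (T : ℝ) : ℝ := ∑' x, if lam x ≤ T then c x else 0

theorem GLs_diff (D : GSer lam c) {s : ℂ} (hs : 1 / 2 < s.re) : DifferentiableAt ℂ (GLs lam c) s := by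
  obtain ⟨t, ht1, ht2⟩ := exists_between hs
  have hU : IsOpen {s : ℂ | t < s.re} := open_re t
  have h1 : DifferentiableOn ℂ (fun s => ∑' x, (c x : ℂ) * exp (-(s * lam x))) {s : ℂ | t < s.re} := by
    refine differentiableOn_tsum_of_summable_norm (D.sum t ht1) (fun x => ?_) hU ?_
    · exact (by fun_prop : Differentiable ℂ fun s : ℂ => (c x : ℂ) * exp (-(s * lam x))).differentiableOn
    · intro x w hw
      obtain ⟨δ, hδ, hge⟩ := D.gap
      have h2 : 0 < lam x := hδ.trans_le (hge x)
      rw [norm_mul, norm_real, Real.norm_eq_abs, norm_exp]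
      refine mul_le_mul_of_nonneg_left (Real.exp_le_exp.2 ?_) (abs_nonneg _)
      have h3 : (-(w * (lam x : ℂ))).re = -(w.re * lam x) := by simp
      rw [h3]
      have : t < w.re := hw
      nlinarith
  exact (h1 s ht2).differentiableAt (hU.mem_nhds ht2)

section enum

variable {e : I → ℕ}

theorem dat_ext (D : GSer lam c) (he : Function.Injective e) {δ : ℝ} (hδ : 0 < δ)
    (hge : ∀ x, δ ≤ lam x) :
    Dat (Function.extend e lam fun _ => δ) (Function.extend e (fun x => -c x) 0) δ 1 where
  δ0 := hδ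
  σ0 := one_pos
  lam_ge := fun n => by
    by_cases h : ∃ x, e x = n
    · obtain ⟨x, rfl⟩ := h
      rw [he.extend_apply]
      exact hge x
    · rw [Function.extend_apply' _ _ _ h]
  sum := by
    have h1 := D.sum 1 (by norm_num)
    have h2 := (he.summable_iff (f := fun n => |Function.extend e (fun x => -c x) 0 n| *
      Real.exp (-(1 * Function.extend e lam (fun _ => δ) n))) (fun n hn => ?_)).1 ?_
    · exact h2
    · have : ¬∃ x, e x = n := fun ⟨x, hx⟩ => hn ⟨x, hx⟩
      rw [Function.extend_apply' _ _ _ this]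
      simp
    · refine h1.congr fun x => ?_
      simp only [Function.comp]
      rw [he.extend_apply, he.extend_apply, abs_neg]

theorem tsum_ext (he : Function.Injective e) {δ : ℝ} {V : Type} [AddCommMonoid V] [TopologicalSpace V]
    [T2Space V] (F : ℝ → ℝ → V) (hF : ∀ y, F y 0 = 0) :
    ∑' n, F (Function.extend e lam (fun _ => δ) n) (Function.extend e (fun x => -c x) 0 n) =
      ∑' x, F (lam x) (-c x) := by
  rw [← he.tsum_eq]
  · refine tsum_congr fun x => ?_
    rw [he.extend_apply, he.extend_apply]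
  · intro n hn
    by_contra h
    have : ¬∃ x, e x = n := fun ⟨x, hx⟩ => h ⟨x, hx⟩
    refine hn ?_
    have h2 : Function.extend e (fun x => -c x) 0 n = (0 : ℝ) :=
      Function.extend_apply' _ _ _ this
    show F _ (Function.extend e (fun x => -c x) 0 n) = 0
    rw [h2]
    exact hF _

theorem sh_ext (he : Function.Injective e) {δ : ℝ} (T : ℝ) :
    Sh (Function.extend e lam fun _ => δ) (Function.extend e (fun x => -c x) 0) T = -GSs lam c T := by
  unfold Sh GSs
  rw [tsum_ext (lam := lam) (c := c) he (fun a b => if a ≤ T then b else 0) (fun y => by simp),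
    ← tsum_neg]
  refine tsum_congr fun x => ?_
  split_ifs <;> simp

theorem dd_ext (he : Function.Injective e) {δ : ℝ} (s : ℂ) :
    DD (Function.extend e lam fun _ => δ) (Function.extend e (fun x => -c x) 0) s = -GLs lam c s := by
  unfold DD GLs
  rw [tsum_ext (lam := lam) (c := c) he (fun a b => (b : ℂ) * exp (-(s * a))) (fun y => by simp),
    ← tsum_neg]
  refine tsum_congr fun x => ?_
  push_cast
  ring

end enum

/-- **The criterion.** -/
theorem gen_mero (D : GSer lam c) (ρ : ℝ) {A : ℝ} (hA : 0 < A) {η : ℝ} (hη : 0 ≤ η) (hη2 : η < 1 / 2)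
    {g : ℝ → ℝ} {ell R : ℂ → ℂ} (G : GD g ell 1) (hR1 : ∀ s : ℂ, 1 < s.re → exp (ell s) = R s)
    (hR2 : ∀ s : ℂ, 1 / 2 < s.re → DifferentiableAt ℂ R s) :
    IntegrableOn (fun T : ℝ => (Real.log A - GSs lam c T - ρ * Real.log T -
        ρ * Real.eulerMascheroniConstant - g T) ^ 2 * Real.exp (-(2 * η) * T)) (Ioi 1) ↔
      ∃ H : ℂ → ℂ, H2e η H ∧
        ∀ s : ℂ, 1 / 2 < s.re → exp (GLs lam c s) = A * s ^ (ρ : ℂ) * R s * exp (s * H s) := by
  have := D.cnt
  obtain ⟨e, he⟩ := Countable.exists_injective_nat I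
  obtain ⟨δ, hδ, hge⟩ := D.gap
  have D' := dat_ext D he hδ hge
  set q : ℝ := ρ * Real.eulerMascheroniConstant - Real.log A with hq
  have hform : ∀ s : ℂ, 1 < s.re → ∀ w : ℂ,
      exp (ρ * (Real.eulerMascheroniConstant + log s) - (q : ℝ) + ell s + w) =
        A * s ^ (ρ : ℂ) * R s * exp w := by
    intro s hs w
    have hs0 : s ≠ 0 := ne_zero_of_re (by linarith : (0 : ℝ) < s.re)
    rw [hq, cpow_def_of_ne_zero hs0]
    have e1 : (ρ : ℂ) * (Real.eulerMascheroniConstant + log s) -
        ((ρ * Real.eulerMascheroniConstant - Real.log A : ℝ) : ℂ) + ell s + w =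
        (Real.log A : ℂ) + log s * ρ + ell s + w := by
      push_cast
      ring
    rw [e1, exp_add, exp_add, exp_add, ← Complex.ofReal_exp, Real.exp_log hA, hR1 s hs]
  have hDD : ∀ s : ℂ, exp (-DD (Function.extend e lam fun _ => δ)
      (Function.extend e (fun x => -c x) 0) s) = exp (GLs lam c s) := by
    intro s
    rw [dd_ext he, neg_neg]
  have hext : ∀ H : ℂ → ℂ, H2e η H → ((∀ s : ℂ, 1 < s.re →
      exp (-DD (Function.extend e lam fun _ => δ) (Function.extend e (fun x => -c x) 0) s) =
      exp (ρ * (Real.eulerMascheroniConstant + log s) - (q : ℝ) + ell s + s * H s)) ↔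
      ∀ s : ℂ, 1 / 2 < s.re → exp (GLs lam c s) = A * s ^ (ρ : ℂ) * R s * exp (s * H s)) := by
    intro H hH
    constructor
    · intro h
      have hU : IsOpen {s : ℂ | 1 / 2 < s.re} := open_re _
      have hUc : IsPreconnected {s : ℂ | 1 / 2 < s.re} := (conv_re _).isPreconnected
      have a1 : AnalyticOnNhd ℂ (fun s => exp (GLs lam c s)) {s : ℂ | 1 / 2 < s.re} :=
        DifferentiableOn.analyticOnNhd (fun s hs =>
          (GLs_diff D hs).cexp.differentiableWithinAt) hU
      have a2 : AnalyticOnNhd ℂ (fun s => A * s ^ (ρ : ℂ) * R s * exp (s * H s))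
          {s : ℂ | 1 / 2 < s.re} := by
        refine DifferentiableOn.analyticOnNhd (fun s hs => ?_) hU
        have hs' : 1 / 2 < s.re := hs
        have h0 : 0 < s.re := by linarith
        have h1 : DifferentiableAt ℂ (fun s : ℂ => s ^ (ρ : ℂ)) s :=
          differentiableAt_id.cpow_const (Or.inl h0)
        exact (((h1.const_mul _).mul (hR2 s hs')).mul
          ((differentiableAt_id.mul (hH.diff s (by linarith))).cexp)).differentiableWithinAt
      have h3 : (2 : ℂ) ∈ {s : ℂ | 1 / 2 < s.re} := by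
        show 1 / 2 < (2 : ℂ).re
        norm_num
      have h4 : (fun s => exp (GLs lam c s)) =ᶠ[𝓝 (2 : ℂ)]
          fun z => A * z ^ (ρ : ℂ) * R z * exp (z * H z) := by
        filter_upwards [(open_re 1).mem_nhds (show (1 : ℝ) < (2 : ℂ).re by norm_num)] with z hz
        rw [← hDD z, h z hz, hform z hz]
      exact fun s hs => a1.eqOn_of_preconnected_of_eventuallyEq a2 hUc h3 h4 hs
    · intro h s hs
      rw [hDD s, h s (by linarith), hform s hs]
  have main := hardy_g D' G ρ q hη (by linarith)
  rw [← main.trans (exists_congr fun H => and_congr_right fun hH => hext H hH)]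
  refine integrableOn_congr_fun (fun T _ => ?_) measurableSet_Ioi
  rw [sh_ext he, hq]
  ring

end Pool.Agent.Q245.Me
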