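import Pool.Agent.Q5.BP.Hardy

/-!
# The mean square law with a subtracted function, and the Hardy spaces of the half planes
`Re s > η` (the proof follows `Pool.Agent.Q5.BP.Hardy`, helper5)
-/

set_option autoImplicit false
set_option maxHeartbeats 1000000

open MeasureTheory Filter Topology Set Complex
open scoped ENNReal
open Pool.Agent.TH942.LS (Dat)
open Pool.Agent.TH942.SL (DD)
open Pool.Agent.TH270.MS (Sh sh_meas ferr_meas)
open Pool.Agent.TH270.MS.LocL2 (const_of_exp)
open Pool.Agent.Q5.BP

namespace Pool.Agent.Q245.Me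

/-- the Hardy space of the half plane `Re s > η` -/
structure H2e (η : ℝ) (H : ℂ → ℂ) : Prop where
  diff : ∀ s : ℂ, η < s.re → DifferentiableAt ℂ H s
  bdd : ∀ x : ℝ, η < x → ∃ B : ℝ, ∀ s : ℂ, x ≤ s.re → ‖H s‖ ≤ B
  sq : ∃ M : ℝ, ∀ x : ℝ, η < x → ∫⁻ t : ℝ, ‖H (x + t * I)‖ₑ ^ 2 ≤ ENNReal.ofReal M

/-- the truncation to `u > 0` -/
noncomputable def gi (g : ℝ → ℝ) (u : ℝ) : ℂ :=
  (Ioi (0 : ℝ)).indicator (fun u : ℝ => (g u : ℂ)) u

/-- the data of a subtracted function `g` -/
structure GD (g : ℝ → ℝ) (ell : ℂ → ℂ) (σ : ℝ) : Prop where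
  meas : Measurable g
  bd : ∃ C : ℝ, 0 ≤ C ∧ ∀ u : ℝ, 0 ≤ u → |g u| ≤ C * Real.exp (σ * u)
  lap : ∀ s : ℂ, σ < s.re → s * La (gi g) s = -ell s
  ell : ∀ s : ℂ, σ < s.re → DifferentiableAt ℂ ell s

variable {lam c : ℕ → ℝ} {δ σ : ℝ} {g : ℝ → ℝ} {ell : ℂ → ℂ}

lemma gi_pos {u : ℝ} (hu : 0 < u) : gi g u = (g u : ℂ) := by
  unfold gi
  rw [indicator_of_mem (show u ∈ Ioi (0 : ℝ) from hu)]

lemma gi_zero {u : ℝ} (hu : u ≤ 0) : gi g u = 0 := by
  unfold gi
  rw [indicator_of_notMem (by simpa using hu)]

lemma gi_meas (hg : Measurable g) : Measurable (gi g) :=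
  (Complex.measurable_ofReal.comp hg).indicator measurableSet_Ioi

lemma gi_exp_HL (G : GD g ell σ) {x : ℝ} (hx : σ < x) :
    HL (fun u : ℝ => gi g u * exp (-((x : ℂ) * u))) where
  zero := fun u hu => by rw [gi_zero hu, zero_mul]
  sq := by
    obtain ⟨C, hC0, hC⟩ := G.bd
    have h1 := (exp_memLp (x := x - σ) (by linarith)).const_mul C
    refine h1.mono (((gi_meas G.meas).mul (by fun_prop)).aestronglyMeasurable)
      (Eventually.of_forall fun u => ?_)
    by_cases hu : u ∈ Ioi (0 : ℝ)
    · have hu0 : 0 < u := hu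
      rw [gi_pos hu0, norm_mul, norm_exp_neg', Complex.ofReal_re, Complex.norm_real,
        Real.norm_eq_abs, indicator_of_mem hu, norm_mul, Real.norm_of_nonneg hC0,
        Real.norm_of_nonneg (Real.exp_pos _).le]
      calc |g u| * Real.exp (-(x * u)) ≤ C * Real.exp (σ * u) * Real.exp (-(x * u)) :=
            mul_le_mul_of_nonneg_right (hC u hu0.le) (Real.exp_pos _).le
        _ = C * Real.exp (-((x - σ) * u)) := by
            rw [mul_assoc, ← Real.exp_add]
            ring_nf
    · rw [gi_zero (not_lt.1 hu), zero_mul, norm_zero]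
      exact norm_nonneg _

lemma gi_int (G : GD g ell σ) {s : ℂ} (hs : σ < s.re) :
    Integrable fun u : ℝ => gi g u * exp (-(s * u)) := by
  obtain ⟨x, h1, h2⟩ := exists_between hs
  have h3 := (gi_exp_HL G h1).int (s := s - x) (by simpa using h2)
  refine h3.congr (Eventually.of_forall fun u => ?_)
  simp only
  rw [mul_assoc, ← exp_add]
  congr 2
  ring

/-- the error term -/
noncomputable def kg (lam c : ℕ → ℝ) (r q : ℝ) (g : ℝ → ℝ) (u : ℝ) : ℂ :=
  hh lam c r q u - gi g u

lemma kg_pos (r q : ℝ) {u : ℝ} (hu : 0 < u) :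
    kg lam c r q g u = ((Sh lam c u - r * Real.log u - q - g u : ℝ) : ℂ) := by
  unfold kg
  rw [hh_pos r q hu, gi_pos hu]
  push_cast
  ring

lemma kg_zero (r q : ℝ) {u : ℝ} (hu : u ≤ 0) : kg lam c r q g u = 0 := by
  unfold kg
  rw [hh_zero r q hu, gi_zero hu, sub_zero]

lemma kg_meas (D : Dat lam c δ σ) (hg : Measurable g) (r q : ℝ) :
    Measurable (kg lam c r q g) := (hh_meas D r q).sub (gi_meas hg)

lemma kg_int (D : Dat lam c δ σ) (G : GD g ell σ) (r q : ℝ) {s : ℂ} (hs : σ < s.re) :
    Integrable fun u : ℝ => kg lam c r q g u * exp (-(s * u)) := by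
  have h := (hh_int D r q hs).sub (gi_int G hs)
  refine h.congr (Eventually.of_forall fun u => ?_)
  simp only [Pi.sub_apply, kg]
  ring

lemma kg_exp_memLp (D : Dat lam c δ σ) (G : GD g ell σ) (r q : ℝ) {x : ℝ} (hx : σ < x) :
    MemLp (fun u : ℝ => kg lam c r q g u * exp (-((x : ℂ) * u))) 2 := by
  have h := (hh_exp_HL D r q hx).sq.sub (gi_exp_HL G hx).sq
  refine h.congr_norm (((kg_meas D G.meas r q).mul (by fun_prop)).aestronglyMeasurable)
    (Eventually.of_forall fun u => ?_)
  simp only [Pi.sub_apply, kg]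
  rw [sub_mul]

/-- the Laplace transform of the error term -/
theorem kg_lap (D : Dat lam c δ σ) (G : GD g ell σ) (r q : ℝ) {s : ℂ} (hs : σ < s.re) :
    s * La (kg lam c r q g) s =
      DD lam c s + r * (Real.eulerMascheroniConstant + log s) - q + ell s := by
  have h1 : La (kg lam c r q g) s = La (hh lam c r q) s - La (gi g) s := by
    unfold La
    rw [← integral_sub (hh_int D r q hs) (gi_int G hs)]
    refine integral_congr_ae (Eventually.of_forall fun u => ?_)
    simp only [kg]
    ring
  rw [h1, mul_sub, la_eq D r q hs, G.lap s hs]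
  ring

/-- the weighted error term is square integrable -/
theorem kg_HL (D : Dat lam c δ σ) (G : GD g ell σ) {r q η : ℝ} (hη : 0 ≤ η)
    (h : IntegrableOn (fun u : ℝ => (Sh lam c u - r * Real.log u - q - g u) ^ 2 *
      Real.exp (-(2 * η) * u)) (Ioi 1)) :
    HL (fun u : ℝ => kg lam c r q g u * exp (-((η : ℂ) * u))) where
  zero := fun u hu => by rw [kg_zero r q hu, zero_mul]
  sq := by
    have hm : Measurable fun u : ℝ => kg lam c r q g u * exp (-((η : ℂ) * u)) :=
      (kg_meas D G.meas r q).mul (by fun_prop)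
    rw [memLp_two_iff_integrable_sq_norm hm.aestronglyMeasurable]
    obtain ⟨C, hC0, hC⟩ := G.bd
    have i1 : IntegrableOn (fun u : ℝ => (Sh lam c u - r * Real.log u - q - g u) ^ 2 *
        Real.exp (-(2 * η) * u)) (Ioc 0 1) := by
      have i2 : IntegrableOn (fun u : ℝ => 2 * (Sh lam c u - r * Real.log u - q) ^ 2 +
          2 * (C * Real.exp σ) ^ 2) (Ioc 0 1) :=
        ((near_int D r q).const_mul 2).add (integrableOn_const (by simp))
      refine i2.mono' ((((ferr_meas D r q).sub G.meas).pow_const 2).mul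
        (by fun_prop)).aestronglyMeasurable ?_
      filter_upwards [ae_restrict_mem measurableSet_Ioc] with u hu
      have e1 : |g u| ≤ C * Real.exp σ := by
        refine (hC u hu.1.le).trans (mul_le_mul_of_nonneg_left (Real.exp_le_exp.2 ?_) hC0)
        have := D.σ0
        nlinarith [hu.2]
      have e2 : g u ^ 2 ≤ (C * Real.exp σ) ^ 2 := by
        rw [← sq_abs (g u)]
        exact pow_le_pow_left₀ (abs_nonneg _) e1 2
      have e3 : Real.exp (-(2 * η) * u) ≤ 1 := by
        rw [Real.exp_le_one_iff]
        nlinarith [mul_nonneg hη hu.1.le]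
      rw [Real.norm_of_nonneg (by positivity)]
      have e4 : (Sh lam c u - r * Real.log u - q - g u) ^ 2 ≤
          2 * (Sh lam c u - r * Real.log u - q) ^ 2 + 2 * (C * Real.exp σ) ^ 2 := by
        nlinarith [sq_nonneg ((Sh lam c u - r * Real.log u - q) + g u)]
      calc (Sh lam c u - r * Real.log u - q - g u) ^ 2 * Real.exp (-(2 * η) * u) ≤
            (Sh lam c u - r * Real.log u - q - g u) ^ 2 * 1 :=
            mul_le_mul_of_nonneg_left e3 (sq_nonneg _)
        _ ≤ _ := by rw [mul_one]; exact e4
    have h1 := i1.union h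
    rw [Ioc_union_Ioi_eq_Ioi zero_le_one] at h1
    refine ((integrable_indicator_iff measurableSet_Ioi).2 h1).congr
      (Eventually.of_forall fun u => ?_)
    by_cases hu : u ∈ Ioi (0 : ℝ)
    · simp only [indicator_of_mem hu]
      rw [kg_pos r q hu, norm_mul, norm_exp_neg', Complex.ofReal_re, Complex.norm_real,
        Real.norm_eq_abs, mul_pow, sq_abs, ← Real.exp_nat_mul]
      congr 2
      push_cast
      ring
    · simp only [indicator_of_notMem hu]
      rw [kg_zero r q (not_lt.1 hu)]
      simp

/-- shift of a Hardy space -/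
lemma H2e_of_H2 {η : ℝ} {F : ℂ → ℂ} (h : H2 F) : H2e η (fun s => F (s - η)) where
  diff := fun s hs => by
    have h1 := h.diff (s - η) (by simpa using hs)
    exact DifferentiableAt.comp s (f := fun s : ℂ => s - η) h1 (by fun_prop)
  bdd := fun x hx => by
    obtain ⟨B, hB⟩ := h.bdd (x - η) (by linarith)
    exact ⟨B, fun s hs => hB _ (by simpa using hs)⟩
  sq := by
    obtain ⟨M, hM⟩ := h.sq
    refine ⟨M, fun x hx => ?_⟩
    have h1 := hM (x - η) (by linarith)
    refine le_trans (le_of_eq (lintegral_congr fun t => ?_)) h1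
    congr 3
    push_cast
    ring

/-- **The weighted mean square law and the Hardy spaces.** -/
theorem hardy_g (D : Dat lam c δ σ) (G : GD g ell σ) (r q : ℝ) {η : ℝ} (hη : 0 ≤ η) (hησ : η < σ) :
    IntegrableOn (fun u : ℝ => (Sh lam c u - r * Real.log u - q - g u) ^ 2 *
      Real.exp (-(2 * η) * u)) (Ioi 1) ↔
      ∃ H : ℂ → ℂ, H2e η H ∧ ∀ s : ℂ, σ < s.re → exp (-DD lam c s) =
        exp (r * (Real.eulerMascheroniConstant + log s) - q + ell s + s * H s) := by
  have hσ := D.σ0
  constructor
  · intro h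
    have HH := kg_HL D G hη h
    have HN : HL (fun u => -(kg lam c r q g u * exp (-((η : ℂ) * u)))) :=
      ⟨fun u hu => by rw [HH.zero u hu, neg_zero], HH.sq.neg⟩
    refine ⟨fun s => La (fun u => -(kg lam c r q g u * exp (-((η : ℂ) * u)))) (s - η),
      H2e_of_H2 HN.h2, fun s hs => ?_⟩
    have hneg : La (fun u => -(kg lam c r q g u * exp (-((η : ℂ) * u)))) (s - η) =
        -La (kg lam c r q g) s := by
      unfold La
      rw [← integral_neg]
      refine integral_congr_ae (Eventually.of_forall fun u => ?_)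
      simp only
      rw [neg_mul, mul_assoc, ← exp_add]
      congr 3
      ring
    simp only
    rw [hneg, mul_neg, kg_lap D G r q hs]
    congr 1
    ring
  · rintro ⟨H, hH, he⟩
    -- the constant
    set U : Set ℂ := {s : ℂ | σ < s.re} with hU
    set Df : ℂ → ℂ := fun s => -DD lam c s - (r * (Real.eulerMascheroniConstant + log s) - q +
      ell s + s * H s) with hDf
    have hd : ∀ z ∈ U, DifferentiableAt ℂ Df z := by
      intro z hz
      have hz' : σ < z.re := hz
      have h1 : DifferentiableAt ℂ (fun s => log s) z :=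
        differentiableAt_id.clog (Or.inl (hσ.trans hz'))
      exact (dd_diff D hz').neg.sub (((((h1.const_add _).const_mul _).sub_const _).add
        (G.ell z hz')).add (differentiableAt_id.mul (hH.diff z (hησ.trans hz'))))
    have hc : ∀ z ∈ U, exp (Df z) = 1 := by
      intro z hz
      rw [hDf]
      simp only
      rw [exp_sub, he z hz, div_self (exp_ne_zero _)]
    set s₀ : ℂ := ((σ + 1 : ℝ) : ℂ) with hs₀
    have hs₀U : s₀ ∈ U := by
      show σ < ((σ + 1 : ℝ) : ℂ).re
      rw [Complex.ofReal_re]
      linarith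
    set C₀ : ℂ := Df s₀ with hC₀
    have hC : ∀ z ∈ U, Df z = C₀ := fun z hz =>
      const_of_exp (open_re σ) (conv_re σ).isPreconnected hd hc hz hs₀U
    have hCre : C₀.re = 0 := by
      have h1 := hc s₀ hs₀U
      have h2 : Real.exp C₀.re = 1 := by
        rw [← Complex.norm_exp, hC₀, h1, norm_one]
      exact Real.exp_eq_one_iff _ |>.1 h2
    -- the function
    set k : ℝ → ℂ := fun u => -kg lam c r q g u - C₀ * (Ioi (0 : ℝ)).indicator (fun _ => 1) u
      with hk
    have istep : ∀ {s : ℂ}, 0 < s.re → Integrable fun u : ℝ =>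
        (Ioi (0 : ℝ)).indicator (fun _ => (1 : ℂ)) u * exp (-(s * u)) := by
      intro s hs
      have h1 := integrableOn_exp_mul_complex_Ioi (a := -s) (by simpa using hs) 0
      refine ((integrable_indicator_iff measurableSet_Ioi).2 h1).congr
        (Eventually.of_forall fun u => ?_)
      by_cases hu : u ∈ Ioi (0 : ℝ)
      · simp only [indicator_of_mem hu, one_mul, neg_mul]
      · simp only [indicator_of_notMem hu, zero_mul]
    have vstep : ∀ {s : ℂ}, 0 < s.re → ∫ u : ℝ,
        (Ioi (0 : ℝ)).indicator (fun _ => (1 : ℂ)) u * exp (-(s * u)) = 1 / s := by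
      intro s hs
      have h1 := integral_exp_mul_complex_Ioi (a := -s) (by simpa using hs) 0
      rw [← integral_indicator measurableSet_Ioi] at h1
      have h2 : ∫ u : ℝ, (Ioi (0 : ℝ)).indicator (fun _ => (1 : ℂ)) u * exp (-(s * u)) =
          ∫ u : ℝ, (Ioi (0 : ℝ)).indicator (fun u : ℝ => exp (-s * u)) u := by
        refine integral_congr_ae (Eventually.of_forall fun u => ?_)
        by_cases hu : u ∈ Ioi (0 : ℝ)
        · simp only [indicator_of_mem hu, one_mul, neg_mul]
        · simp only [indicator_of_notMem hu, zero_mul]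
      rw [h2, h1]
      simp
    have hsplit : ∀ (s : ℂ) (u : ℝ), k u * exp (-(s * u)) =
        -(kg lam c r q g u * exp (-(s * u))) -
        C₀ * ((Ioi (0 : ℝ)).indicator (fun _ => (1 : ℂ)) u * exp (-(s * u))) := by
      intro s u
      rw [hk]
      ring
    have kint : ∀ {s : ℂ}, σ < s.re → Integrable fun u : ℝ => k u * exp (-(s * u)) := by
      intro s hs
      simp_rw [hsplit]
      exact (kg_int D G r q hs).neg.sub ((istep (hσ.trans hs)).const_mul _)
    have hkm : Measurable k := (kg_meas D G.meas r q).neg.sub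
      ((measurable_const.indicator measurableSet_Ioi).const_mul _)
    have hk2 : ∀ x : ℝ, σ < x → MemLp (fun u : ℝ => k u * exp (-((x : ℂ) * u))) 2 := by
      intro x hx
      have h1 := kg_exp_memLp D G r q hx
      have h2 : MemLp (fun u : ℝ => C₀ * ((Ioi (0 : ℝ)).indicator (fun _ => (1 : ℂ)) u *
          exp (-((x : ℂ) * u)))) 2 := by
        refine MemLp.const_mul ?_ C₀
        have h3 := exp_memLp (hσ.trans hx)
        refine MemLp.mono h3 (((measurable_const.indicator measurableSet_Ioi).mul
          (by fun_prop)).aestronglyMeasurable) (Eventually.of_forall fun u => ?_)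
        by_cases hu : u ∈ Ioi (0 : ℝ)
        · simp only [indicator_of_mem hu, one_mul]
          rw [norm_exp_neg', Complex.ofReal_re, Real.norm_of_nonneg (Real.exp_pos _).le]
        · simp only [indicator_of_notMem hu, zero_mul, norm_zero, le_refl]
      refine (h1.neg.sub h2).congr_norm ((hkm.mul (by fun_prop)).aestronglyMeasurable)
        (Eventually.of_forall fun u => ?_)
      simp only [Pi.sub_apply, Pi.neg_apply]
      rw [hsplit]
    have hHk : ∀ s : ℂ, σ < s.re → H s = ∫ u : ℝ, k u * exp (-(s * u)) := by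
      intro s hs
      have hs0 : s ≠ 0 := ne_zero_of_re (hσ.trans hs)
      simp_rw [hsplit]
      have i1 : Integrable fun u : ℝ => -(kg lam c r q g u * exp (-(s * u))) :=
        (kg_int D G r q hs).neg
      rw [integral_sub i1 ((istep (hσ.trans hs)).const_mul _), integral_neg,
        integral_const_mul, vstep (hσ.trans hs)]
      have h1 : ∫ u : ℝ, kg lam c r q g u * exp (-(s * u)) = La (kg lam c r q g) s := rfl
      rw [h1]
      have h2 := kg_lap D G r q hs
      have h3 := hC s hs
      rw [hDf] at h3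
      simp only at h3
      have h4 : s * H s = s * (-La (kg lam c r q g) s - C₀ * (1 / s)) := by
        have h5 : s * (-La (kg lam c r q g) s - C₀ * (1 / s)) =
            -(s * La (kg lam c r q g) s) - C₀ := by
          field_simp
        rw [h5, h2, ← h3]
        ring
      exact mul_left_cancel₀ hs0 h4
    obtain ⟨M, hM⟩ := hH.sq
    -- the shifted function
    set kη : ℝ → ℂ := fun u => k u * exp (-((η : ℂ) * u)) with hkη
    have hcomb : ∀ (s : ℂ) (u : ℝ), kη u * exp (-(s * u)) = k u * exp (-((s + η) * u)) := by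
      intro s u
      rw [hkη]
      simp only
      rw [mul_assoc, ← exp_add]
      congr 2
      ring
    have hPW := Pool.Agent.TH270.MS.paley_wiener (k := kη) (H := fun s => H (s + η)) (a := σ - η)
      (δ₀ := 1) (K := ENNReal.ofReal M) (by linarith) one_pos
      (fun x hx => by
        simp_rw [hcomb]
        exact kint (by rw [Complex.add_re, Complex.ofReal_re, Complex.ofReal_re]; linarith))
      (fun x hx => by
        simp_rw [hcomb]
        have := hk2 (x + η) (by linarith)
        push_cast at this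
        exact this)
      (fun s hs => by
        simp_rw [hcomb]
        exact hHk (s + η) (by rw [Complex.add_re, Complex.ofReal_re]; linarith))
      (fun s hs => by
        have h1 := hH.diff (s + η) (by rw [Complex.add_re, Complex.ofReal_re]; linarith)
        exact DifferentiableAt.comp s (f := fun s : ℂ => s + η) h1 (by fun_prop))
      (fun δ hδ => by
        obtain ⟨B, hB⟩ := hH.bdd (δ + η) (by linarith)
        exact ⟨B, fun s hs _ => hB _ (by rw [Complex.add_re, Complex.ofReal_re]; linarith)⟩)
      (fun δ hδ _ => by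
        have h1 := hM (δ + η) (by linarith)
        refine le_trans (le_of_eq (lintegral_congr fun t => ?_)) h1
        congr 3
        push_cast
        ring)
    have hfin : ∫⁻ u : ℝ, ‖kη u‖ₑ ^ 2 < ⊤ := hPW.trans_lt ENNReal.ofReal_lt_top
    refine ⟨((((ferr_meas D r q).sub G.meas).pow_const 2).mul
      (by fun_prop)).aestronglyMeasurable, ?_⟩
    refine lt_of_le_of_lt ?_ hfin
    refine le_trans ?_ (lintegral_mono' (Measure.restrict_le_self (s := Ioi (1 : ℝ))) le_rfl)
    refine setLIntegral_mono' measurableSet_Ioi fun u hu => ?_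
    have hu1 : (1 : ℝ) < u := hu
    have hu0 : 0 < u := by linarith
    rw [← ofReal_norm, ← ofReal_norm, ← ENNReal.ofReal_pow (norm_nonneg _)]
    apply ENNReal.ofReal_le_ofReal
    have h1 : (k u).re = -(Sh lam c u - r * Real.log u - q - g u) := by
      rw [hk]
      simp only
      rw [indicator_of_mem (show u ∈ Ioi (0 : ℝ) from hu0), kg_pos r q hu0, mul_one,
        Complex.sub_re, Complex.neg_re, Complex.ofReal_re, hCre, sub_zero]
    rw [Real.norm_of_nonneg (by positivity), hkη]
    simp only
    rw [norm_mul, norm_exp_neg', Complex.ofReal_re, mul_pow, ← Real.exp_nat_mul]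
    have h2 : Real.exp (-(2 * η) * u) = Real.exp (((2 : ℕ) : ℝ) * -(η * u)) := by
      congr 1
      push_cast
      ring
    rw [h2]
    refine mul_le_mul_of_nonneg_right ?_ (Real.exp_pos _).le
    rw [← sq_abs, ← abs_neg, ← h1]
    exact pow_le_pow_left₀ (abs_nonneg _) (Complex.abs_re_le_norm _) 2

end Pool.Agent.Q245.Me
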