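import Pool.Agent.Q5.BP.Hardy2
import Pool.Agent.Q245.Me.Hardy

/-!
# Euler products: the criterion with a subtracted function
-/

set_option autoImplicit false
set_option maxHeartbeats 1000000

open MeasureTheory Filter Topology Set Complex
open scoped ENNReal
open Pool.Agent.TH942.LS (Dat)
open Pool.Agent.TH942.SL (DD)
open Pool.Agent.TH270.MS (Sh DvR dvR_sh cov_int)
open Pool.Agent.TH942.ES (lamS Sys LE cS)
open Pool.Agent.TH270.RS (cS' dat' DD_neg)
open Pool.Agent.Q5.BP

namespace Pool.Agent.Q245.Me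

variable {X : Type} {d : ℕ} {N : X → ℕ} {α : X → Fin d → ℂ} {e : X × ℕ → ℕ}

/-- the change of variables -/
theorem dvR_sq_g (E : Sys N α) (he : Function.Injective e) (ρ A η : ℝ) (g : ℝ → ℝ) :
    IntegrableOn (fun Y : ℝ => (DvR N α ρ A Y + g (Real.log Y)) ^ 2 * Y ^ (-(2 * η)) / Y)
      (Ioi (Real.exp 1)) ↔
      IntegrableOn (fun T : ℝ => (Sh (lamS N e) (cS' N α e) T - ρ * Real.log T -
        (ρ * Real.eulerMascheroniConstant - Real.log A) - g T) ^ 2 * Real.exp (-(2 * η) * T))
        (Ioi 1) := by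
  rw [← cov_int]
  refine integrableOn_congr_fun (fun Y hY => ?_) measurableSet_Ioi
  have h0 : 0 < Y := (Real.exp_pos 1).trans hY
  have e1 : Y ^ (-(2 * η)) = Real.exp (-(2 * η) * Real.log Y) := by
    rw [Real.rpow_def_of_pos h0, mul_comm]
  rw [dvR_sh E he ρ A h0, e1]
  ring

/-- **Euler products, weights and subtracted functions.** -/
theorem sys_mero (E : Sys N α)
    (hreal : ∀ v k, (∑ i, Pool.Agent.TH942.ES.zv N α v i ^ k).im = 0)
    (ρ : ℝ) {A : ℝ} (hA : 0 < A) {η : ℝ} (hη : 0 ≤ η) (hη2 : η < 1 / 2) {g : ℝ → ℝ}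
    {ell R : ℂ → ℂ} (G : GD g ell 1) (hR1 : ∀ s : ℂ, 1 < s.re → exp (ell s) = R s)
    (hR2 : ∀ s : ℂ, 1 / 2 < s.re → DifferentiableAt ℂ R s) :
    IntegrableOn (fun Y : ℝ => (DvR N α ρ A Y + g (Real.log Y)) ^ 2 * Y ^ (-(2 * η)) / Y)
      (Ioi (Real.exp 1)) ↔
      ∃ H : ℂ → ℂ, H2e η H ∧
        ∀ s : ℂ, 1 / 2 < s.re → LE N α s = A * s ^ (ρ : ℂ) * R s * exp (s * H s) := by
  have := E.cnt
  obtain ⟨e, he⟩ := Countable.exists_injective_nat (X × ℕ)
  have D := dat' E he
  set q : ℝ := ρ * Real.eulerMascheroniConstant - Real.log A with hq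
  -- the identity
  have hform : ∀ s : ℂ, 1 < s.re → ∀ w : ℂ,
      exp (ρ * (Real.eulerMascheroniConstant + log s) - (q : ℝ) + ell s + w) =
        A * s ^ (ρ : ℂ) * R s * exp w := by
    intro s hs w
    have hs0 : s ≠ 0 := ne_zero_of_re (by linarith : (0 : ℝ) < s.re)
    rw [hq, cpow_def_of_ne_zero hs0]
    have e1 : (ρ : ℂ) * (Real.eulerMascheroniConstant + log s) -
        ((ρ * Real.eulerMascheroniConstant - Real.log A : ℝ) : ℂ) + ell s + w =
        (Real.log A : ℂ) + log s * ρ + ell s + w := by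
      push_cast
      ring
    rw [e1, exp_add, exp_add, exp_add, ← Complex.ofReal_exp, Real.exp_log hA, hR1 s hs]
  have hDD : ∀ s : ℂ, 1 < s.re → exp (-DD (lamS N e) (cS' N α e) s) = LE N α s := by
    intro s hs
    rw [DD_neg, E.exp_DD hreal he (by linarith)]
  have hext : ∀ H : ℂ → ℂ, H2e η H → ((∀ s : ℂ, 1 < s.re →
      exp (-DD (lamS N e) (cS' N α e) s) =
      exp (ρ * (Real.eulerMascheroniConstant + log s) - (q : ℝ) + ell s + s * H s)) ↔
      ∀ s : ℂ, 1 / 2 < s.re → LE N α s = A * s ^ (ρ : ℂ) * R s * exp (s * H s)) := by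
    intro H hH
    constructor
    · intro h
      have hU : IsOpen {s : ℂ | 1 / 2 < s.re} := open_re _
      have hUc : IsPreconnected {s : ℂ | 1 / 2 < s.re} := (conv_re _).isPreconnected
      have a1 : AnalyticOnNhd ℂ (LE N α) {s : ℂ | 1 / 2 < s.re} :=
        DifferentiableOn.analyticOnNhd (fun s hs =>
          (E.LE_diff hs).1.differentiableWithinAt) hU
      have a2 : AnalyticOnNhd ℂ (fun s => A * s ^ (ρ : ℂ) * R s * exp (s * H s))
          {s : ℂ | 1 / 2 < s.re} := by
        refine DifferentiableOn.analyticOnNhd (fun s hs => ?_) hU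
        have hs' : 1 / 2 < s.re := hs
        have h0 : 0 < s.re := by linarith
        have h1 : DifferentiableAt ℂ (fun s : ℂ => s ^ (ρ : ℂ)) s :=
          differentiableAt_id.cpow_const (Or.inl h0)
        exact (((h1.const_mul _).mul (hR2 s hs')).mul
          ((differentiableAt_id.mul (hH.diff s (by linarith))).cexp)).differentiableWithinAt
      have h3 : (2 : ℂ) ∈ {s : ℂ | 1 / 2 < s.re} := by
        show 1 / 2 < (2 : ℂ).re
        norm_num
      have h4 : ∀ᶠ z in 𝓝 (2 : ℂ), LE N α z = A * z ^ (ρ : ℂ) * R z * exp (z * H z) := by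
        filter_upwards [(open_re 1).mem_nhds (show (1 : ℝ) < (2 : ℂ).re by norm_num)] with z hz
        rw [← hDD z hz, h z hz, hform z hz]
      exact fun s hs => a1.eqOn_of_preconnected_of_eventuallyEq a2 hUc h3 h4 hs
    · intro h s hs
      rw [hDD s hs, h s (by linarith), hform s hs]
  have main := hardy_g D G ρ q hη (by linarith)
  rw [← dvR_sq_g E he] at main
  exact main.trans (exists_congr fun H => and_congr_right fun hH => hext H hH)

end Pool.Agent.Q245.Me
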