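import Pool.Agent.Q245.Me.Ein
import Pool.Agent.Q245.Me.Hardy

/-!
# The subtracted function for finitely many zeros and poles
-/

set_option autoImplicit false
set_option maxHeartbeats 1000000

open MeasureTheory Filter Topology Set Complex
open Pool.Agent.Q5.BP

namespace Pool.Agent.Q245.Me

/-- the contribution of the zeros and poles -/
noncomputable def gZ (Z : Finset ℂ) (m : ℂ → ℤ) (u : ℝ) : ℝ :=
  ∑ ρ ∈ Z, (m ρ : ℝ) * (Ein (ρ * u)).re

/-- the logarithm of the rational function -/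
noncomputable def ellZ (Z : Finset ℂ) (m : ℂ → ℤ) (s : ℂ) : ℂ :=
  ∑ ρ ∈ Z, (m ρ : ℂ) * (log (s - ρ) - log s)

/-- the rational function -/
noncomputable def RZ (Z : Finset ℂ) (m : ℂ → ℤ) (s : ℂ) : ℂ := ∏ ρ ∈ Z, (1 - ρ / s) ^ m ρ

lemma gZ_eq {Z : Finset ℂ} {m : ℂ → ℤ}
    (hZ : ∀ ρ ∈ Z, (starRingEnd ℂ) ρ ∈ Z ∧ m ((starRingEnd ℂ) ρ) = m ρ) (u : ℝ) :
    (gZ Z m u : ℂ) = ∑ ρ ∈ Z, (m ρ : ℂ) * Ein (ρ * u) := by
  have h1 : (starRingEnd ℂ) (∑ ρ ∈ Z, (m ρ : ℂ) * Ein (ρ * u)) =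
      ∑ ρ ∈ Z, (m ρ : ℂ) * Ein (ρ * u) := by
    rw [map_sum]
    refine Finset.sum_nbij' (fun ρ => (starRingEnd ℂ) ρ) (fun ρ => (starRingEnd ℂ) ρ)
      (fun ρ hρ => (hZ ρ hρ).1) (fun ρ hρ => (hZ ρ hρ).1) (fun ρ _ => Complex.conj_conj ρ)
      (fun ρ _ => Complex.conj_conj ρ) (fun ρ hρ => ?_)
    rw [(hZ ρ hρ).2, map_mul, map_intCast, ← ein_conj, map_mul, Complex.conj_ofReal]
  rw [Complex.conj_eq_iff_re] at h1
  rw [← h1]
  congr 1
  unfold gZ
  rw [Complex.re_sum]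
  refine Finset.sum_congr rfl fun ρ _ => ?_
  rw [← Complex.ofReal_intCast, Complex.re_ofReal_mul]

lemma gZ_meas (Z : Finset ℂ) (m : ℂ → ℤ) : Measurable (gZ Z m) := by
  have h : Continuous (gZ Z m) := by
    unfold gZ
    refine continuous_finset_sum _ fun ρ _ => ?_
    have h1 : Continuous fun u : ℝ => Ein (ρ * u) := continuous_ein.comp (by fun_prop)
    exact continuous_const.mul (Complex.continuous_re.comp h1)
  exact h.measurable

lemma ein_exp_le {ρ : ℂ} (hρ : ρ.re ≤ 1 / 2) {u : ℝ} (hu : 0 ≤ u) :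
    ‖Ein (ρ * u)‖ ≤ 2 * ‖ρ‖ * Real.exp (1 * u) := by
  refine (ein_le _).trans ?_
  have e : (ρ * (u : ℂ)).re = ρ.re * u := by simp
  rw [e, norm_mul, Complex.norm_real, Real.norm_of_nonneg hu]
  have h1 : Real.exp (max (ρ.re * u) 0) ≤ Real.exp (u / 2) := by
    apply Real.exp_le_exp.2
    apply max_le _ (by positivity)
    nlinarith
  have h2 : u ≤ 2 * Real.exp (u / 2) := by
    have := Real.add_one_le_exp (u / 2)
    linarith
  have h3 : Real.exp (1 * u) = Real.exp (u / 2) * Real.exp (u / 2) := by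
    rw [← Real.exp_add]
    ring_nf
  rw [h3]
  have h4 := Real.exp_pos (u / 2)
  calc ‖ρ‖ * u * Real.exp (max (ρ.re * u) 0) ≤ ‖ρ‖ * (2 * Real.exp (u / 2)) * Real.exp (u / 2) :=
        mul_le_mul (mul_le_mul_of_nonneg_left h2 (norm_nonneg _)) h1 (Real.exp_pos _).le
          (by positivity)
    _ = _ := by ring

lemma ein_int {ρ s : ℂ} (hs : max ρ.re 0 < s.re) :
    IntegrableOn (fun u : ℝ => Ein (ρ * u) * exp (-(s * u))) (Ioi 0) := by
  set a : ℝ := s.re - max ρ.re 0 with ha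
  have ha0 : 0 < a := by rw [ha]; linarith
  have h1 : IntegrableOn (fun u : ℝ => ‖ρ‖ * (2 / a) * Real.exp (-(a / 2) * u)) (Ioi 0) :=
    (integrableOn_exp_mul_Ioi (a := -(a / 2)) (by linarith) 0).const_mul _
  have hc : Continuous fun u : ℝ => Ein (ρ * u) * exp (-(s * u)) := by
    have h1 : Continuous fun u : ℝ => Ein (ρ * u) := continuous_ein.comp (by fun_prop)
    exact h1.mul (by fun_prop)
  refine h1.mono' hc.aestronglyMeasurable ?_
  filter_upwards [ae_restrict_mem measurableSet_Ioi] with u hu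
  have hu0 : 0 < u := hu
  rw [norm_mul, norm_exp_neg']
  have h1 := ein_le (ρ * u)
  have e1 : (ρ * (u : ℂ)).re = ρ.re * u := by simp
  rw [e1, norm_mul, Complex.norm_real, Real.norm_of_nonneg hu0.le] at h1
  have h2 : max (ρ.re * u) 0 = max ρ.re 0 * u := by
    rw [max_mul_of_nonneg _ _ hu0.le, zero_mul]
  rw [h2] at h1
  calc ‖Ein (ρ * u)‖ * Real.exp (-(s.re * u)) ≤
        ‖ρ‖ * u * Real.exp (max ρ.re 0 * u) * Real.exp (-(s.re * u)) :=
        mul_le_mul_of_nonneg_right h1 (Real.exp_pos _).le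
    _ = ‖ρ‖ * (u * Real.exp (-(a * u))) := by
        rw [mul_assoc, ← Real.exp_add, mul_assoc]
        congr 3
        rw [ha]
        ring
    _ ≤ ‖ρ‖ * (2 / a * Real.exp (-(a / 2 * u))) :=
        mul_le_mul_of_nonneg_left (u_exp_le ha0) (norm_nonneg _)
    _ = _ := by rw [neg_mul]; ring

theorem gZ_GD {Z : Finset ℂ} {m : ℂ → ℤ}
    (hZ : ∀ ρ ∈ Z, (starRingEnd ℂ) ρ ∈ Z ∧ m ((starRingEnd ℂ) ρ) = m ρ)
    (hre : ∀ ρ ∈ Z, ρ.re ≤ 1 / 2) : GD (gZ Z m) (ellZ Z m) 1 where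
  meas := gZ_meas Z m
  bd := by
    refine ⟨∑ ρ ∈ Z, |(m ρ : ℝ)| * (2 * ‖ρ‖), Finset.sum_nonneg fun ρ _ => by positivity,
      fun u hu => ?_⟩
    unfold gZ
    refine (Finset.abs_sum_le_sum_abs _ _).trans ?_
    rw [Finset.sum_mul]
    refine Finset.sum_le_sum fun ρ hρ => ?_
    rw [abs_mul, mul_assoc]
    refine mul_le_mul_of_nonneg_left ?_ (abs_nonneg _)
    exact (Complex.abs_re_le_norm _).trans (ein_exp_le (hre ρ hρ) hu)
  lap := by
    intro s hs
    have h1 : La (gi (gZ Z m)) s = ∫ u in Ioi (0 : ℝ), (gZ Z m u : ℂ) * exp (-(s * u)) := by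
      unfold La
      rw [← integral_indicator measurableSet_Ioi]
      refine integral_congr_ae (Eventually.of_forall fun u => ?_)
      by_cases hu : u ∈ Ioi (0 : ℝ)
      · simp only [indicator_of_mem hu, gi]
      · simp only [indicator_of_notMem hu, gi, zero_mul]
    have h2 : ∀ ρ ∈ Z, max ρ.re 0 < s.re := by
      intro ρ hρ
      have := hre ρ hρ
      apply max_lt <;> linarith
    have h3 : ∫ u in Ioi (0 : ℝ), (gZ Z m u : ℂ) * exp (-(s * u)) =
        ∑ ρ ∈ Z, (m ρ : ℂ) * ∫ u in Ioi (0 : ℝ), Ein (ρ * u) * exp (-(s * u)) := by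
      have h4 : ∀ u : ℝ, (gZ Z m u : ℂ) * exp (-(s * u)) =
          ∑ ρ ∈ Z, (m ρ : ℂ) * (Ein (ρ * u) * exp (-(s * u))) := by
        intro u
        rw [gZ_eq hZ u, Finset.sum_mul]
        refine Finset.sum_congr rfl fun ρ _ => ?_
        ring
      simp_rw [h4]
      rw [integral_finset_sum _ fun ρ hρ => ((ein_int (h2 ρ hρ)).const_mul _)]
      refine Finset.sum_congr rfl fun ρ _ => ?_
      rw [integral_const_mul]
    rw [h1, h3, Finset.mul_sum]
    unfold ellZ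
    rw [← Finset.sum_neg_distrib]
    refine Finset.sum_congr rfl fun ρ hρ => ?_
    rw [mul_left_comm, ein_laplace ρ s (h2 ρ hρ)]
    ring
  ell := by
    intro s hs
    unfold ellZ
    refine DifferentiableAt.fun_sum fun ρ hρ => ?_
    have h1 : 0 < (s - ρ).re := by
      rw [Complex.sub_re]
      have := hre ρ hρ
      linarith
    have h2 : DifferentiableAt ℂ (fun s : ℂ => log (s - ρ)) s :=
      (differentiableAt_id.sub_const ρ).clog (Or.inl h1)
    have h3 : DifferentiableAt ℂ (fun s : ℂ => log s) s :=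
      differentiableAt_id.clog (Or.inl (by linarith : (0 : ℝ) < s.re))
    exact (h2.sub h3).const_mul _

theorem RZ_exp {Z : Finset ℂ} {m : ℂ → ℤ} (hre : ∀ ρ ∈ Z, ρ.re ≤ 1 / 2) {s : ℂ}
    (hs : 1 < s.re) : exp (ellZ Z m s) = RZ Z m s := by
  unfold ellZ RZ
  rw [exp_sum]
  refine Finset.prod_congr rfl fun ρ hρ => ?_
  have hs0 : s ≠ 0 := by
    rintro rfl
    simp at hs
    linarith
  have hs1 : s - ρ ≠ 0 := by
    intro h
    have h1 : (s - ρ).re = 0 := by rw [h]; simp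
    rw [Complex.sub_re] at h1
    have := hre ρ hρ
    linarith
  rw [exp_int_mul, exp_sub, exp_log hs1, exp_log hs0, sub_div, div_self hs0]

theorem RZ_ne {Z : Finset ℂ} {s : ℂ} (hs0 : s ≠ 0) {ρ : ℂ} (hsZ : s ≠ ρ) :
    1 - ρ / s ≠ 0 := by
  intro h
  apply hsZ
  field_simp at h
  linear_combination h

theorem RZ_diff {Z : Finset ℂ} {m : ℂ → ℤ} {s : ℂ} (hs0 : s ≠ 0) (hsZ : s ∉ Z) :
    DifferentiableAt ℂ (RZ Z m) s := by
  unfold RZ
  refine DifferentiableAt.fun_finset_prod fun ρ hρ => ?_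
  have h1 : DifferentiableAt ℂ (fun s : ℂ => 1 - ρ / s) s :=
    (differentiableAt_const _).sub ((differentiableAt_const _).div differentiableAt_id hs0)
  exact h1.zpow (Or.inl (RZ_ne (Z := Z) hs0 fun h => hsZ (h ▸ hρ)))

end Pool.Agent.Q245.Me
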